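import Pool.Agent.Work.MP_aff8ab_lc.NP.Defs

/-! The configurations of the explicit motion. The vertices are `b = 0`, `v = 1`, `u = 2`,
`r = 3`, ..., `e = k - 1`, `b' = k`; the bars are `B` (length `4 / W`), `X` (length `xi W`), then
`len 2` (`Y`), `len 3`, ..., `len (k - 2)` (`H`), `len (k - 1)` (`B'`). -/

open Finset

namespace Pool.Agent.MP_aff8ab_lc.NP

/-- The length of the bar `X`. -/
noncomputable def xi (W : ℝ) : ℝ := 1 - W ^ 2 / 256

/-- The abscissa of the vertices `b` and `v`. -/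
noncomputable def xv (W : ℝ) : ℝ := 1 - W ^ 2 / 1024

/-- The horizontal extent of `X` divided by `s ξ`. -/
noncomputable def gg (t : ℝ) : ℝ := (1 - t) * (3 / 5) + t

/-- The abscissas. -/
noncomputable def confX (W : ℝ) (d : ℕ → ℝ) (t s : ℝ) (j : ℕ) : ℝ :=
  if j ≤ 1 then xv W else xv W - gg t * s * xi W + t * s * ∑ i ∈ Ico 2 j, d i

/-- The ordinates from the vertex `u` on. -/
noncomputable def confH (k : ℕ) (W : ℝ) (len d : ℕ → ℝ) (t s : ℝ) (j : ℕ) : ℝ :=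
  W / 8 + ∑ i ∈ Ico j k, √(len i ^ 2 - (t * s * d i) ^ 2)

/-- The ordinate of `v` minus the ordinate of `u`. -/
noncomputable def liftX (W t s : ℝ) : ℝ :=
  xi W * √(1 - s ^ 2) - xi W * √(1 - gg t ^ 2)

/-- The ordinates. -/
noncomputable def confY (k : ℕ) (W : ℝ) (len d : ℕ → ℝ) (t s : ℝ) (j : ℕ) : ℝ :=
  if j = 0 then confH k W len d t s 2 + liftX W t s + 4 / W
  else if j = 1 then confH k W len d t s 2 + liftX W t s
  else confH k W len d t s j

/-- The configuration with parameters `t`, `s`. -/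
noncomputable def conf (k : ℕ) (W : ℝ) (len d : ℕ → ℝ) (t s : ℝ) (j : Fin (k + 1)) : ℂ :=
  ⟨confX W d t s j, confY k W len d t s j⟩

/-- The hypotheses on the lengths. -/
structure LenOK (k : ℕ) (W : ℝ) (len : ℕ → ℝ) : Prop where
  k4 : 4 ≤ k
  W0 : 0 < W
  W1 : W ≤ 1 / 100
  pos : ∀ i, 2 ≤ i → i < k → 0 < len i
  two : len 2 = 1 + W ^ 2 / 256
  tot : ∑ i ∈ Ico 2 k, len i ≤ 12 / 5

/-- The hypotheses on the horizontal extents in the critical position. -/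
structure DOK (k : ℕ) (W : ℝ) (len d : ℕ → ℝ) : Prop extends LenOK k W len where
  lt : ∀ i, 2 ≤ i → i < k → |d i| < len i
  d0 : 0 ≤ d 2
  dxi : d 2 ≤ xi W
  part0 : ∀ j, 2 ≤ j → j ≤ k → 0 ≤ ∑ i ∈ Ico 2 j, d i
  part1 : ∀ j, 2 ≤ j → j ≤ k → ∑ i ∈ Ico 2 j, d i ≤ xi W

end Pool.Agent.MP_aff8ab_lc.NP
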