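import Pool.Agent.Work.MP_aff8ab_lc.NP.Conf

/-! The configurations of the explicit motion do not intersect themselves. -/

open Set Finset

namespace Pool.Agent.MP_aff8ab_lc.NP

theorem seg_im {u v z : ℂ} (h : v.im < u.im) (hz : z ∈ segment ℝ u v) :
    v.im ≤ z.im ∧ z.im ≤ u.im ∧ (z.im = v.im → z = v) ∧ (z.im = u.im → z = u) := by
  obtain ⟨a, b, ha, hb, hab, rfl⟩ := hz
  obtain rfl : a = 1 - b := by linarith
  have e : ((1 - b) • u + b • v).im = u.im - b * (u.im - v.im) := by simp; ring
  have e' : ((1 - b) • u + b • v).im = v.im + (1 - b) * (u.im - v.im) := by simp; ring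
  have hd : 0 < u.im - v.im := by linarith
  refine ⟨?_, ?_, ?_, ?_⟩
  · rw [e']; have := mul_nonneg ha hd.le; linarith
  · rw [e]; have := mul_nonneg hb hd.le; linarith
  · intro h
    rw [e'] at h
    have : (1 - b) * (u.im - v.im) = 0 := by linarith
    have hb1 : 1 - b = 0 := by
      rcases mul_eq_zero.1 this with h | h
      · exact h
      · exact absurd h hd.ne'
    obtain rfl : b = 1 := by linarith
    simp
  · intro h
    rw [e] at h
    have : b * (u.im - v.im) = 0 := by linarith
    have hb1 : b = 0 := by
      rcases mul_eq_zero.1 this with h | h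
      · exact h
      · exact absurd h hd.ne'
    subst hb1
    simp

theorem inter_of_desc {u v w : ℂ} (h1 : v.im < u.im) (h2 : w.im < v.im) :
    segment ℝ u v ∩ segment ℝ v w = {v} := by
  ext z
  constructor
  · rintro ⟨hz1, hz2⟩
    have r1 := seg_im h1 hz1
    have r2 := seg_im h2 hz2
    exact r1.2.2.1 (le_antisymm r2.2.1 r1.1)
  · rintro rfl
    exact ⟨right_mem_segment ℝ _ _, left_mem_segment ℝ _ _⟩

theorem disj_of_desc {u v w x : ℂ} (h1 : v.im < u.im) (h2 : w.im < v.im) (h3 : x.im < w.im) :
    Disjoint (segment ℝ u v) (segment ℝ w x) := by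
  rw [Set.disjoint_left]
  intro z hz1 hz2
  have r1 := (seg_im h1 hz1).1
  have r2 := (seg_im h3 hz2).2.1
  linarith

/-- the vertices -/
noncomputable def vert (k : ℕ) (W : ℝ) (len d : ℕ → ℝ) (t s : ℝ) (j : ℕ) : ℂ :=
  ⟨confX W d t s j, confY k W len d t s j⟩

section
variable {k : ℕ} {W : ℝ} {len d : ℕ → ℝ} {t s : ℝ}

theorem abar_conf (i : Fin k) : abar (conf k W len d t s) i
    = segment ℝ (vert k W len d t s i) (vert k W len d t s (i + 1)) := rfl

theorem confH_succ {j : ℕ} (hj : j < k) : confH k W len d t s j
    = confH k W len d t s (j + 1) + √(len j ^ 2 - (t * s * d j) ^ 2) := by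
  unfold confH
  rw [Finset.sum_eq_sum_Ico_succ_bot hj]
  ring

theorem root_pos (h : DOK k W len d) (ht : t ∈ Icc (0 : ℝ) 1) (hs : s ∈ Icc (0 : ℝ) 1) {j : ℕ}
    (h2 : 2 ≤ j) (hj : j < k) : 0 < √(len j ^ 2 - (t * s * d j) ^ 2) := by
  apply Real.sqrt_pos.2
  have h1 := h.lt j h2 hj
  have h0 : 0 ≤ t * s := mul_nonneg ht.1 hs.1
  have h3 : t * s ≤ 1 := mul_le_one₀ ht.2 hs.1 hs.2
  have h4 : |t * s * d j| < len j := by
    rw [abs_mul, abs_of_nonneg h0]
    have := mul_le_of_le_one_left (abs_nonneg (d j)) h3
    linarith
  have h5 : (t * s * d j) ^ 2 < len j ^ 2 := by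
    rw [← sq_abs (t * s * d j)]
    exact pow_lt_pow_left₀ h4 (abs_nonneg _) two_ne_zero
  linarith

theorem confY_two {j : ℕ} (h2 : 2 ≤ j) : confY k W len d t s j = confH k W len d t s j := by
  unfold confY
  rw [if_neg (by omega), if_neg (by omega)]

theorem vert_im {j : ℕ} (h2 : 2 ≤ j) : (vert k W len d t s j).im = confH k W len d t s j :=
  confY_two h2

theorem desc_step (h : DOK k W len d) (ht : t ∈ Icc (0 : ℝ) 1) (hs : s ∈ Icc (0 : ℝ) 1) {j : ℕ}
    (h2 : 2 ≤ j) (hj : j < k) : (vert k W len d t s (j + 1)).im < (vert k W len d t s j).im := by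
  rw [vert_im h2, vert_im (by omega), confH_succ hj]
  have := root_pos h ht hs h2 hj
  linarith

theorem desc (h : DOK k W len d) (ht : t ∈ Icc (0 : ℝ) 1) (hs : s ∈ Icc (0 : ℝ) 1) {i j : ℕ}
    (h2 : 2 ≤ i) (hij : i < j) (hj : j ≤ k) :
    (vert k W len d t s j).im < (vert k W len d t s i).im := by
  induction j, hij using Nat.le_induction with
  | base => exact desc_step h ht hs h2 (by omega)
  | succ j hij ih =>
    exact (desc_step h ht hs (by omega) (by omega)).trans (ih (by omega))

theorem gg_nonneg (ht : t ∈ Icc (0 : ℝ) 1) : 3 / 5 ≤ gg t ∧ gg t ≤ 1 ∧ t ≤ gg t := by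
  unfold gg
  obtain ⟨h0, h1⟩ := ht
  refine ⟨by nlinarith, by nlinarith, by nlinarith⟩

theorem xi_pos (h : LenOK k W len) : 0 < xi W ∧ xi W ≤ 1 := by
  unfold xi
  have h1 := h.W1
  have h0 := h.W0
  constructor
  · nlinarith
  · nlinarith

theorem vert_zero : vert k W len d t s 0
    = ⟨xv W, confH k W len d t s 2 + liftX W t s + 4 / W⟩ := by
  simp [vert, confX, confY]

theorem vert_one : vert k W len d t s 1 = ⟨xv W, confH k W len d t s 2 + liftX W t s⟩ := by
  simp [vert, confX, confY]

theorem vert_two : vert k W len d t s 2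
    = ⟨xv W - gg t * s * xi W, confH k W len d t s 2⟩ := by
  simp [vert, confX, confY]

theorem vert_three (h : LenOK k W len) : vert k W len d t s 3
    = ⟨xv W - gg t * s * xi W + t * s * d 2,
      confH k W len d t s 2 - √(len 2 ^ 2 - (t * s * d 2) ^ 2)⟩ := by
  have h4 := h.k4
  have e := confH_succ (k := k) (W := W) (len := len) (d := d) (t := t) (s := s) (j := 2)
    (by omega)
  simp only [vert, confX, confY]
  norm_num
  rw [e]
  ring

theorem im_one_lt (h : LenOK k W len) :
    (vert k W len d t s 1).im < (vert k W len d t s 0).im := by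
  rw [vert_zero, vert_one]
  have : 0 < 4 / W := by have := h.W0; positivity
  simp only
  linarith

/-- all heights are strictly decreasing -/
theorem open_of_desc {P : ℕ → ℂ} (hP : ∀ i j, i < j → j ≤ k → (P j).im < (P i).im) :
    (∀ i j : Fin k, (i : ℕ) + 1 = j → segment ℝ (P i) (P (i + 1)) ∩ segment ℝ (P j) (P (j + 1))
      = {P (i + 1)}) ∧
    (∀ i j : Fin k, (i : ℕ) + 1 < j → Disjoint (segment ℝ (P i) (P (i + 1)))
      (segment ℝ (P j) (P (j + 1)))) := by
  constructor
  · intro i j hij
    rw [← hij]
    exact inter_of_desc (hP _ _ (by omega) (by omega)) (hP _ _ (by omega) (by omega))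
  · intro i j hij
    exact disj_of_desc (hP _ _ (by omega) (by omega)) (hP _ _ (by omega) (by omega))
      (hP _ _ (by omega) (by omega))

theorem conf_open (h : DOK k W len d) (ht : t ∈ Icc (0 : ℝ) 1) (hs : s ∈ Icc (0 : ℝ) 1)
    (hts : t = 1 ∨ s = 1) :
    (∀ i j : Fin k, (i : ℕ) + 1 = j → abar (conf k W len d t s) i ∩ abar (conf k W len d t s) j
      = {conf k W len d t s i.succ}) ∧
    (∀ i j : Fin k, (i : ℕ) + 1 < j →
      Disjoint (abar (conf k W len d t s) i) (abar (conf k W len d t s) j)) := by
  simp only [abar_conf]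
  show (∀ i j : Fin k, (i : ℕ) + 1 = j →
      segment ℝ (vert k W len d t s i) (vert k W len d t s (i + 1)) ∩
      segment ℝ (vert k W len d t s j) (vert k W len d t s (j + 1))
      = {vert k W len d t s (i + 1)}) ∧ _
  have h4 := h.k4
  have hxi := xi_pos h.toLenOK
  obtain ⟨hg0, hg1, hgt⟩ := gg_nonneg ht
  have h01 := im_one_lt (d := d) (t := t) (s := s) h.toLenOK
  rcases lt_or_ge s 1 with hs1 | hs1
  · -- the first phase: everything is strictly decreasing
    obtain rfl : t = 1 := hts.resolve_right hs1.ne
    have hlift : 0 < liftX W 1 s := by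
      unfold liftX gg
      have : 0 < √(1 - s ^ 2) := by
        apply Real.sqrt_pos.2
        nlinarith [hs.1]
      have e : (1 : ℝ) - ((1 - 1) * (3 / 5) + 1) ^ 2 = 0 := by norm_num
      rw [e, Real.sqrt_zero, mul_zero, sub_zero]
      exact mul_pos hxi.1 this
    have h12 : (vert k W len d 1 s 2).im < (vert k W len d 1 s 1).im := by
      rw [vert_one, vert_two]
      simp only
      linarith
    refine open_of_desc (P := vert k W len d 1 s) ?_
    intro i j hij hj
    rcases Nat.lt_or_ge i 2 with hi | hi
    · have hj2 : (vert k W len d 1 s j).im < (vert k W len d 1 s 0).im ∧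
          (1 < j → (vert k W len d 1 s j).im < (vert k W len d 1 s 1).im) := by
        rcases Nat.lt_or_ge j 2 with hj1 | hj1
        · obtain rfl : j = 1 := by omega
          exact ⟨h01, fun h => absurd h (lt_irrefl _)⟩
        · have hle : (vert k W len d 1 s j).im ≤ (vert k W len d 1 s 2).im := by
            rcases eq_or_lt_of_le hj1 with h' | h'
            · rw [← h']
            · exact (desc h ht hs le_rfl h' hj).le
          exact ⟨by linarith, fun _ => by linarith⟩
      interval_cases i
      · exact hj2.1
      · exact hj2.2 hij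
    · exact desc h ht hs hi hij hj
  · -- the second phase
    obtain rfl : s = 1 := le_antisymm hs.2 hs1
    have h1t : t * 1 = t := mul_one t
    set V : ℝ := xi W * √(1 - gg t ^ 2) with hV
    have hlift : liftX W t 1 = -V := by
      unfold liftX
      rw [hV]
      have e : (1 : ℝ) - 1 ^ 2 = 0 := by norm_num
      rw [e, Real.sqrt_zero]
      ring
    set VY : ℝ := √(len 2 ^ 2 - (t * 1 * d 2) ^ 2) with hVY
    set H : ℝ := confH k W len d t 1 2 with hH
    set g : ℝ := gg t with hg
    set X : ℝ := xi W with hX
    have e0 : vert k W len d t 1 0 = ⟨xv W, H - V + 4 / W⟩ := by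
      rw [vert_zero, hlift]
      rfl
    have e1 : vert k W len d t 1 1 = ⟨xv W, H - V⟩ := by
      rw [vert_one, hlift]
      rfl
    have e2 : vert k W len d t 1 2 = ⟨xv W - g * X, H⟩ := by
      rw [vert_two, mul_one]
    have e3 : vert k W len d t 1 3 = ⟨xv W - g * X + t * d 2, H - VY⟩ := by
      rw [vert_three h.toLenOK, mul_one, mul_one, hVY, h1t]
    have hV0 : 0 ≤ V := mul_nonneg hxi.1.le (Real.sqrt_nonneg _)
    have hVsq : V ^ 2 = X ^ 2 * (1 - g ^ 2) := by
      rw [hV, mul_pow, Real.sq_sqrt (by nlinarith)]
    have hd0 := h.d0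
    have hd1 := h.dxi
    have htd : 0 ≤ t * d 2 := mul_nonneg ht.1 hd0
    have htd1 : t * d 2 ≤ g * X := by
      have : t * d 2 ≤ t * X := mul_le_mul_of_nonneg_left hd1 ht.1
      have : t * X ≤ g * X := mul_le_mul_of_nonneg_right hgt hxi.1.le
      linarith
    have hVY0 : 0 < VY := root_pos h ht hs le_rfl (by omega)
    have hVYsq : VY ^ 2 = len 2 ^ 2 - (t * d 2) ^ 2 := by
      have := Real.sqrt_pos.1 hVY0
      rw [hVY, Real.sq_sqrt this.le, h1t]
    have hlen2 : X < len 2 := by
      rw [h.two, hX, xi]
      have := h.W0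
      have : 0 < W ^ 2 := by positivity
      linarith
    have hVV : V < VY := by
      refine lt_of_pow_lt_pow_left₀ 2 hVY0.le ?_
      rw [hVsq, hVYsq]
      have h1 : X ^ 2 < len 2 ^ 2 := pow_lt_pow_left₀ hlen2 hxi.1.le two_ne_zero
      have h2 : (t * d 2) ^ 2 ≤ (g * X) ^ 2 := pow_le_pow_left₀ htd htd1 2
      nlinarith
    have hgX : 0 < g * X := mul_pos (by linarith) hxi.1
    -- X lies on the left of its end and above it
    have hXbar : ∀ z ∈ segment ℝ (vert k W len d t 1 1) (vert k W len d t 1 2),
        z.re ≤ xv W ∧ H - V ≤ z.im ∧ (z.re = xv W → z = vert k W len d t 1 1) := by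
      rw [e1, e2]
      rintro z ⟨a, b, ha, hb, hab, rfl⟩
      obtain rfl : a = 1 - b := by linarith
      have r1 : ((1 - b) • (⟨xv W, H - V⟩ : ℂ) + b • (⟨xv W - g * X, H⟩ : ℂ)).re
          = xv W - b * (g * X) := by simp; ring
      have r2 : ((1 - b) • (⟨xv W, H - V⟩ : ℂ) + b • (⟨xv W - g * X, H⟩ : ℂ)).im
          = H - V + b * V := by simp; ring
      refine ⟨?_, ?_, ?_⟩
      · rw [r1]
        have := mul_nonneg hb hgX.le
        linarith
      · rw [r2]
        have := mul_nonneg hb hV0
        linarith
      · intro hz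
        rw [r1] at hz
        have hb0 : b * (g * X) = 0 := by linarith
        have : b = 0 := (mul_eq_zero.1 hb0).resolve_right hgX.ne'
        subst this
        simp
    have hBbar : ∀ z ∈ segment ℝ (vert k W len d t 1 0) (vert k W len d t 1 1),
        z.re = xv W ∧ H - V ≤ z.im := by
      rintro z hz
      refine ⟨?_, ?_⟩
      · rw [e0, e1] at hz
        obtain ⟨a, b, ha, hb, hab, rfl⟩ := hz
        obtain rfl : a = 1 - b := by linarith
        simp
        ring
      · have := (seg_im h01 hz).1
        rw [e1] at this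
        exact this
    have hYbar : ∀ z ∈ segment ℝ (vert k W len d t 1 2) (vert k W len d t 1 3),
        z.re = xv W → z.im ≤ H - VY := by
      rw [e2, e3]
      rintro z ⟨a, b, ha, hb, hab, rfl⟩
      obtain rfl : a = 1 - b := by linarith
      have r1 : ((1 - b) • (⟨xv W - g * X, H⟩ : ℂ)
          + b • (⟨xv W - g * X + t * d 2, H - VY⟩ : ℂ)).re
          = xv W - g * X + b * (t * d 2) := by simp; ring
      have r2 : ((1 - b) • (⟨xv W - g * X, H⟩ : ℂ)
          + b • (⟨xv W - g * X + t * d 2, H - VY⟩ : ℂ)).im
          = H - b * VY := by simp; ring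
      intro hz
      rw [r1] at hz
      rw [r2]
      have h1 : b * (t * d 2) ≤ b * (g * X) := mul_le_mul_of_nonneg_left htd1 hb
      have h2 : (1 - b) * (g * X) ≤ 0 := by linarith
      have h3 : 1 - b ≤ 0 := by
        by_contra hc
        push Not at hc
        have := mul_pos hc hgX
        linarith
      obtain rfl : b = 1 := by linarith
      linarith
    have h3lt : (vert k W len d t 1 3).im < H - V := by
      rw [e3]
      simp only
      linarith
    have hlow : ∀ j, 3 ≤ j → j < k → ∀ z ∈ segment ℝ (vert k W len d t 1 j)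
        (vert k W len d t 1 (j + 1)), z.im < H - V := by
      intro j hj hjk z hz
      have h1 := (seg_im (desc h ht hs (by omega) (Nat.lt_succ_self j) (by omega)) hz).2.1
      have h2 : (vert k W len d t 1 j).im ≤ (vert k W len d t 1 3).im := by
        rcases eq_or_lt_of_le hj with h' | h'
        · rw [← h']
        · exact (desc h ht hs (by omega) h' (by omega)).le
      linarith
    constructor
    · intro i j hij
      have hjk : (i : ℕ) + 1 < k := by
        have := j.2
        omega
      rw [← hij]
      obtain ⟨i, hi⟩ := i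
      simp only at hjk ⊢
      rcases Nat.lt_or_ge i 2 with hi2 | hi2
      · interval_cases i
        · -- B and X
          ext z
          constructor
          · rintro ⟨hz1, hz2⟩
            exact (hXbar z hz2).2.2 (hBbar z hz1).1
          · rintro rfl
            exact ⟨right_mem_segment ℝ _ _, left_mem_segment ℝ _ _⟩
        · -- X and Y
          ext z
          constructor
          · rintro ⟨hz1, hz2⟩
            show z = vert k W len d t 1 2
            change z ∈ segment ℝ (vert k W len d t 1 1) (vert k W len d t 1 2) at hz1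
            change z ∈ segment ℝ (vert k W len d t 1 2) (vert k W len d t 1 3) at hz2
            rw [e1, e2] at hz1
            rw [e2, e3] at hz2
            rw [e2]
            obtain ⟨a, b, ha, hb, hab, rfl⟩ := hz1
            obtain ⟨a', b', ha', hb', hab', hz⟩ := hz2
            obtain rfl : b = 1 - a := by linarith
            obtain rfl : a' = 1 - b' := by linarith
            have x1 := congrArg Complex.re hz
            have x2 := congrArg Complex.im hz
            simp only [Complex.add_re, Complex.add_im, Complex.smul_re, Complex.smul_im,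
              smul_eq_mul] at x1 x2
            have y1 : b' * (t * d 2) = a * (g * X) := by linear_combination x1
            have y2 : b' * VY = a * V := by linear_combination -x2
            have y3 : a * (g * X) ≤ b' * (g * X) := by
              rw [← y1]
              exact mul_le_mul_of_nonneg_left htd1 hb'
            have y4 : a ≤ b' := le_of_mul_le_mul_right y3 hgX
            have y5 : a * VY ≤ a * V := by
              rw [← y2]
              exact mul_le_mul_of_nonneg_right y4 hVY0.le
            have y6 : a = 0 := by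
              by_contra hc
              have : 0 < a := lt_of_le_of_ne ha (Ne.symm hc)
              have := mul_lt_mul_of_pos_left hVV this
              linarith
            subst y6
            simp
          · rintro rfl
            exact ⟨right_mem_segment ℝ _ _, left_mem_segment ℝ _ _⟩
      · exact inter_of_desc (desc h ht hs hi2 (by omega) (by omega))
          (desc h ht hs (by omega) (by omega) (by omega))
    · intro i j hij
      obtain ⟨i, hi⟩ := i
      obtain ⟨j, hj⟩ := j
      simp only at hij ⊢
      rcases Nat.lt_or_ge i 2 with hi2 | hi2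
      · rw [Set.disjoint_left]
        intro z hz1 hz2
        interval_cases i
        · rcases Nat.lt_or_ge j 3 with hj3 | hj3
          · obtain rfl : j = 2 := by omega
            have b1 := hBbar z hz1
            have b2 := hYbar z hz2 b1.1
            linarith [b1.2]
          · have b1 := hBbar z hz1
            have b2 := hlow j hj3 hj z hz2
            linarith [b1.2]
        · have b1 := hXbar z hz1
          have b2 := hlow j (by omega) hj z hz2
          linarith [b1.2.1]
      · exact disj_of_desc (desc h ht hs hi2 (by omega) (by omega))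
          (desc h ht hs (by omega) (by omega) (by omega))
          (desc h ht hs (by omega) (by omega) (by omega))

end

end Pool.Agent.MP_aff8ab_lc.NP
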