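import Pool.Agent.Work.MP_aff8ab_lc.NP.Conf

/-! All vertices of the explicit motion lie in the interior of the thin triangle. -/

open Finset

namespace Pool.Agent.MP_aff8ab_lc.NP

variable {k : ℕ} {W : ℝ} {len d : ℕ → ℝ} {t s : ℝ}

private theorem xi_pos' (hW0 : 0 < W) (hW1 : W ≤ 1 / 100) : 0 < xi W := by
  unfold xi
  nlinarith

private theorem xi_lt' (hW0 : 0 < W) : xi W < 1 := by
  unfold xi
  have := pow_pos hW0 2
  linarith

private theorem sqrt_le_add' {a d q : ℝ} (hd : |d| ≤ a) (hq0 : 0 ≤ q) (hq1 : q ≤ 1) :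
    √(a ^ 2 - (q * d) ^ 2) ≤ √(a ^ 2 - d ^ 2) + |d| * √(1 - q ^ 2) := by
  have h1 : 0 ≤ a ^ 2 - d ^ 2 := by
    have := abs_nonneg d
    nlinarith [sq_abs d]
  have h2 : 0 ≤ 1 - q ^ 2 := by nlinarith
  rw [Real.sqrt_le_left (by positivity)]
  have e1 := Real.sq_sqrt h1
  have e2 := Real.sq_sqrt h2
  have e3 : 0 ≤ √(a ^ 2 - d ^ 2) * (|d| * √(1 - q ^ 2)) := by positivity
  have e4 : (|d| * √(1 - q ^ 2)) ^ 2 = d ^ 2 * (1 - q ^ 2) := by
    rw [mul_pow, e2, sq_abs]
  nlinarith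

/-- `√(len ^ 2 - ..) ≤ len`. -/
private theorem sqrt_le_self' {a x : ℝ} (ha : 0 ≤ a) : √(a ^ 2 - x ^ 2) ≤ a := by
  rw [Real.sqrt_le_left ha]
  nlinarith [sq_nonneg x]

private theorem confH_le_two (j : ℕ) (hj : 2 ≤ j) :
    confH k W len d t s j ≤ confH k W len d t s 2 := by
  unfold confH
  have : ∑ i ∈ Ico j k, √(len i ^ 2 - (t * s * d i) ^ 2)
      ≤ ∑ i ∈ Ico 2 k, √(len i ^ 2 - (t * s * d i) ^ 2) := by
    apply Finset.sum_le_sum_of_subset_of_nonneg
    · intro i hi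
      simp only [mem_Ico] at hi ⊢
      omega
    · intro i _ _
      positivity
  linarith

private theorem confH_pos (hW0 : 0 < W) (j : ℕ) : 0 < confH k W len d t s j := by
  unfold confH
  have : 0 ≤ ∑ i ∈ Ico j k, √(len i ^ 2 - (t * s * d i) ^ 2) := by positivity
  linarith

private theorem confH_le_len (h : LenOK k W len) :
    confH k W len d t s 2 ≤ W / 8 + 12 / 5 := by
  unfold confH
  have h1 : ∑ i ∈ Ico 2 k, √(len i ^ 2 - (t * s * d i) ^ 2) ≤ ∑ i ∈ Ico 2 k, len i := by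
    apply Finset.sum_le_sum
    intro i hi
    simp only [mem_Ico] at hi
    exact sqrt_le_self' (h.pos i hi.1 hi.2).le
  have := h.tot
  linarith

/-- The general criterion. -/
theorem conf_reg_of (h : DOK k W len d)
    (ht : t ∈ Set.Icc (0 : ℝ) 1) (hs : s ∈ Set.Icc (0 : ℝ) 1)
    (hx : confH k W len d t s 2 < 256 / W * (xv W - gg t * s * xi W)) (j : Fin (k + 1)) :
    conf k W len d t s j ∈ reg (256 / W) := by
  obtain ⟨ht0, ht1⟩ := ht
  obtain ⟨hs0, hs1⟩ := hs
  have hW0 := h.W0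
  have hW1 := h.W1
  have hξ0 := xi_pos' hW0 hW1
  have hξ1 := xi_lt' hW0
  have hxv1 : xv W < 1 := by
    unfold xv
    have := pow_pos hW0 2
    linarith
  have hxv0 : (99 / 100 : ℝ) < xv W := by
    unfold xv
    nlinarith
  have hg : gg t = 3 / 5 + 2 / 5 * t := by unfold gg; ring
  have hgt : t ≤ gg t := by rw [hg]; linarith
  have hg1 : gg t ≤ 1 := by rw [hg]; linarith
  have hg0 : 0 ≤ gg t := by rw [hg]; linarith
  have hWinv : (100 : ℝ) ≤ 1 / W := by
    rw [le_div_iff₀ hW0]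
    linarith
  have e256 : 256 / W = 256 * (1 / W) := by ring
  have e4 : 4 / W = 4 * (1 / W) := by ring
  have hH2 := confH_le_len (d := d) (t := t) (s := s) h.toLenOK
  -- the ordinate of `v`
  have hlift_up : liftX W t s ≤ 1 := by
    unfold liftX
    have h1 : √(1 - s ^ 2) ≤ 1 := by
      rw [Real.sqrt_le_left (by norm_num)]
      nlinarith [sq_nonneg s]
    have h2 : 0 ≤ xi W * √(1 - gg t ^ 2) := by positivity
    have h3 : xi W * √(1 - s ^ 2) ≤ 1 * 1 := by
      apply mul_le_mul hξ1.le h1 (by positivity) (by norm_num)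
    linarith
  have hyv : 0 < confH k W len d t s 2 + liftX W t s := by
    have h1 : √(len 2 ^ 2 - (t * s * d 2) ^ 2) ≤
        ∑ i ∈ Ico 2 k, √(len i ^ 2 - (t * s * d i) ^ 2) := by
      apply Finset.single_le_sum (f := fun i => √(len i ^ 2 - (t * s * d i) ^ 2))
      · intro i _
        positivity
      · simp only [mem_Ico]
        have := h.k4
        omega
    have h2 : xi W * √(1 - gg t ^ 2) ≤ √(len 2 ^ 2 - (t * s * d 2) ^ 2) := by
      apply Real.le_sqrt_of_sq_le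
      rw [mul_pow, Real.sq_sqrt (by nlinarith), h.two]
      have h3 : t * s * d 2 ≤ gg t * xi W := by
        have : t * s ≤ gg t := by nlinarith
        exact mul_le_mul this h.dxi h.d0 hg0
      have h4 : 0 ≤ t * s * d 2 := mul_nonneg (mul_nonneg ht0 hs0) h.d0
      have h5 : (t * s * d 2) ^ 2 ≤ (gg t * xi W) ^ 2 := by
        apply pow_le_pow_left₀ h4 h3
      nlinarith [sq_nonneg W, sq_nonneg (W ^ 2)]
    have h6 : 0 ≤ xi W * √(1 - s ^ 2) := by positivity
    unfold liftX confH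
    linarith
  unfold reg
  simp only [Set.mem_ofPred_eq, conf, confX, confY]
  by_cases hj0 : (j : ℕ) = 0
  · simp only [hj0, Nat.zero_le, if_pos]
    refine ⟨?_, ?_, hxv1⟩
    · have : 0 < 4 / W := by positivity
      linarith
    · rw [e256, e4]
      nlinarith
  · by_cases hj1 : (j : ℕ) = 1
    · simp only [hj1, if_true, le_refl, one_ne_zero, if_false]
      refine ⟨hyv, ?_, hxv1⟩
      rw [e256]
      nlinarith
    · have hj2 : 2 ≤ (j : ℕ) := by omega
      have hjk : (j : ℕ) ≤ k := by omega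
      have hle : ¬ ((j : ℕ) ≤ 1) := by omega
      simp only [hj0, hj1, hle, if_false]
      have hp0 := h.part0 j hj2 hjk
      have hp1 := h.part1 j hj2 hjk
      have hts0 : 0 ≤ t * s := mul_nonneg ht0 hs0
      refine ⟨confH_pos hW0 _, ?_, ?_⟩
      · refine lt_of_le_of_lt (confH_le_two _ hj2) (lt_of_lt_of_le hx ?_)
        apply mul_le_mul_of_nonneg_left _ (by positivity)
        have := mul_nonneg hts0 hp0
        linarith
      · have h1 : t * s * ∑ i ∈ Ico 2 (j : ℕ), d i ≤ t * s * xi W :=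
          mul_le_mul_of_nonneg_left hp1 hts0
        have h2 : t * s * xi W ≤ gg t * s * xi W :=
          mul_le_mul_of_nonneg_right (mul_le_mul_of_nonneg_right hgt hs0) hξ0.le
        linarith

/-- The configurations of the motion lie in the interior of the triangle. -/
theorem conf_reg (h : DOK k W len d)
    (hsmall : ∑ i ∈ Finset.Ico 2 k, √(len i ^ 2 - d i ^ 2) ≤ 3 * W / 8)
    (ht : t ∈ Set.Icc (0 : ℝ) 1) (hs : s ∈ Set.Icc (0 : ℝ) 1) (hts : t = 1 ∨ s = 1)
    (j : Fin (k + 1)) :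
    conf k W len d t s j ∈ reg (256 / W) := by
  apply conf_reg_of h ht hs
  obtain ⟨ht0, ht1⟩ := ht
  obtain ⟨hs0, hs1⟩ := hs
  have hW0 := h.W0
  have hW1 := h.W1
  have hξ0 := xi_pos' hW0 hW1
  have hξ1 := xi_lt' hW0
  have hg : gg t = 3 / 5 + 2 / 5 * t := by unfold gg; ring
  obtain ⟨q, hq⟩ : ∃ q, q = t * s := ⟨_, rfl⟩
  have hq0 : 0 ≤ q := by rw [hq]; exact mul_nonneg ht0 hs0
  have hq1 : q ≤ 1 := by rw [hq]; nlinarith
  have hgs : (2 / 5) * (1 - q) ≤ 1 - gg t * s := by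
    rw [hq, hg]
    rcases hts with rfl | rfl
    · nlinarith
    · nlinarith
  -- the height of `u`
  have hH : confH k W len d t s 2 ≤ W / 2 + 12 / 5 * √(1 - q ^ 2) := by
    unfold confH
    rw [← hq]
    have h1 : ∑ i ∈ Ico 2 k, √(len i ^ 2 - (q * d i) ^ 2)
        ≤ ∑ i ∈ Ico 2 k, (√(len i ^ 2 - d i ^ 2) + len i * √(1 - q ^ 2)) := by
      apply Finset.sum_le_sum
      intro i hi
      simp only [mem_Ico] at hi
      have h2 := sqrt_le_add' (h.lt i hi.1 hi.2).le hq0 hq1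
      have h3 : |d i| * √(1 - q ^ 2) ≤ len i * √(1 - q ^ 2) :=
        mul_le_mul_of_nonneg_right (h.lt i hi.1 hi.2).le (by positivity)
      linarith
    rw [Finset.sum_add_distrib, ← Finset.sum_mul] at h1
    have h4 : (∑ i ∈ Ico 2 k, len i) * √(1 - q ^ 2) ≤ 12 / 5 * √(1 - q ^ 2) :=
      mul_le_mul_of_nonneg_right h.tot (by positivity)
    linarith
  refine lt_of_le_of_lt hH ?_
  -- the abscissa of `u`
  have hx : 3 * W ^ 2 / 1024 + 2 / 5 * xi W * (1 - q) ≤ xv W - gg t * s * xi W := by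
    have e : xv W - gg t * s * xi W = 3 * W ^ 2 / 1024 + xi W * (1 - gg t * s) := by
      unfold xv xi
      ring
    rw [e]
    have := mul_le_mul_of_nonneg_left hgs hξ0.le
    linarith
  refine lt_of_lt_of_le ?_ (mul_le_mul_of_nonneg_left hx (by positivity))
  obtain ⟨r, hr⟩ : ∃ r, r = √(1 - q ^ 2) := ⟨_, rfl⟩
  have hr0 : 0 ≤ r := by rw [hr]; positivity
  have hr2 : r ^ 2 = 1 - q ^ 2 := by
    rw [hr, Real.sq_sqrt]
    nlinarith
  rw [← hr]
  -- `r ^ 2 ≤ 2 (1 - q)`
  have hr3 : r ^ 2 ≤ 2 * (1 - q) := by rw [hr2]; nlinarith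
  have hξ2 : (99 / 100 : ℝ) ≤ xi W := by
    unfold xi
    nlinarith
  have e : 256 / W * (3 * W ^ 2 / 1024 + 2 / 5 * xi W * (1 - q))
      = (3 * W ^ 2 / 4 + 512 / 5 * xi W * (1 - q)) / W := by
    field_simp
    ring
  rw [e, lt_div_iff₀ hW0]
  have h1 : 512 / 5 * (99 / 100) * (r ^ 2 / 2) ≤ 512 / 5 * xi W * (1 - q) := by
    have : (99 / 100 : ℝ) * (r ^ 2 / 2) ≤ xi W * (1 - q) := by
      apply mul_le_mul hξ2 (by linarith) (by positivity) hξ0.le
    linarith
  nlinarith [sq_nonneg (W - 5 * r), pow_pos hW0 2]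

/-- The public configuration lies in the interior of the triangle. -/
theorem start_reg (h : LenOK k W len) (j : Fin (k + 1)) :
    conf k W len 0 0 1 j ∈ reg (256 / W) := by
  have hW0 := h.W0
  have hW1 := h.W1
  have hξ0 := xi_pos' hW0 hW1
  have hξ1 := xi_lt' hW0
  have hD : DOK k W len 0 := by
    refine { toLenOK := h, lt := ?_, d0 := ?_, dxi := ?_, part0 := ?_, part1 := ?_ }
    · intro i h2 hk
      simpa using h.pos i h2 hk
    · simp
    · simpa using hξ0.le
    · intro j _ _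
      simp
    · intro j _ _
      simpa using hξ0.le
  apply conf_reg_of hD ⟨le_refl _, zero_le_one⟩ ⟨zero_le_one, le_refl _⟩
  have hH2 := confH_le_len (d := 0) (t := 0) (s := 1) h
  have hg : gg 0 = 3 / 5 := by unfold gg; ring
  rw [hg]
  refine lt_of_le_of_lt hH2 ?_
  have hWinv : (100 : ℝ) ≤ 1 / W := by
    rw [le_div_iff₀ hW0]
    linarith
  have e256 : 256 / W = 256 * (1 / W) := by ring
  rw [e256]
  have hxv0 : (99 / 100 : ℝ) < xv W := by
    unfold xv
    nlinarith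
  nlinarith

end Pool.Agent.MP_aff8ab_lc.NP
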