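import Pool.Agent.Work.MP_aff8ab_lc.NP.Inst

/-! The explicit coordinates of the chain, and the integer argument. -/

open Finset

namespace Pool.Agent.MP_aff8ab_lc.NP

section

variable {n : ℕ} {a : ℕ → ℕ}

/-- The numerator of the length `a i / (10 S)` is `a i` times this number. -/
def CC (n : ℕ) (a : ℕ → ℕ) : ℕ := 819200 * SS n a * (n + 3) ^ 2

theorem SS_mul_CC : SS n a * CC n a = 512 * MM n a ^ 2 := by
  unfold CC MM
  ring

theorem lenN_two : lenN n a 2 = 5120 * MM n a ^ 2 + 20 := by simp [lenN]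

theorem lenN_last : lenN n a (n + 5) = 5120 * MM n a ^ 2 + 20 := by simp [lenN]

theorem lenN_three : lenN n a 3 = 512 * MM n a ^ 2 := by simp [lenN]

theorem lenN_four : lenN n a (n + 4) = 512 * MM n a ^ 2 := by simp [lenN]

theorem lenN_mid {i : ℕ} (hi : i < n) : lenN n a (4 + i) = a i * CC n a := by
  rw [lenN, if_neg (by omega), if_neg (by omega), Nat.add_sub_cancel_left]
  rfl

theorem hgt_succ {j : ℕ} (hj : j < n + 6) : hgt n a j = lenN n a j + hgt n a (j + 1) := by
  unfold hgt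
  rw [sum_eq_sum_Ico_succ_bot hj]
  ring

theorem hgt_six : hgt n a (n + 6) = 640 * MM n a := by simp [hgt]

theorem hgt_five : hgt n a (n + 5) = 5120 * MM n a ^ 2 + 640 * MM n a + 20 := by
  rw [hgt_succ (by omega), hgt_six, lenN_last]
  ring

theorem hgt_mid_add : ∀ {i : ℕ}, i ≤ n →
    hgt n a (4 + i) + CC n a * ∑ l ∈ range i, a l = hgt n a 4 := by
  intro i
  induction i with
  | zero => intro _; simp
  | succ i ih =>
    intro hi
    rw [← ih (by omega), hgt_succ (j := 4 + i) (by omega), lenN_mid (by omega), sum_range_succ,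
      show 4 + i + 1 = 4 + (i + 1) by ring]
    ring

theorem hgt_four_n : hgt n a (n + 4) = 5632 * MM n a ^ 2 + 640 * MM n a + 20 := by
  rw [hgt_succ (by omega), hgt_five, lenN_four]
  ring

theorem hgt_four : hgt n a 4 = 6144 * MM n a ^ 2 + 640 * MM n a + 20 := by
  rw [← hgt_mid_add (i := n) le_rfl, show 4 + n = n + 4 by ring, hgt_four_n]
  have h : CC n a * ∑ l ∈ range n, a l = 512 * MM n a ^ 2 := by
    rw [← SS_mul_CC, mul_comm]
    rfl
  rw [h]
  ring

theorem hgt_three : hgt n a 3 = 6656 * MM n a ^ 2 + 640 * MM n a + 20 := by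
  rw [hgt_succ (by omega), hgt_four, lenN_three]
  ring

theorem hgt_two_eq : hgt n a 2 = 11776 * MM n a ^ 2 + 640 * MM n a + 40 := by
  rw [hgt_succ (by omega), hgt_three, lenN_two]
  ring

/-- The abscissas. -/
theorem chX_le_one {j : ℕ} (hj : j ≤ 1) : chX n a j = 5120 * MM n a ^ 2 - 5 := if_pos hj

theorem chX_two_le {j : ℕ} (hj : 2 ≤ j) : chX n a j = 2048 * MM n a ^ 2 + 7 :=
  if_neg (by omega)

/-- The ordinates. -/
theorem chY_one (hM : 160 ≤ MM n a) :
    chY n a 1 = 7680 * MM n a ^ 2 + 640 * MM n a + 56 := by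
  have hsq : 160 ^ 2 ≤ MM n a ^ 2 := Nat.pow_le_pow_left hM 2
  rw [chY, if_neg (by omega), if_pos rfl, hgt_two_eq]
  omega

theorem chY_zero (hM : 160 ≤ MM n a) : chY n a 0 =
    20480 * MM n a ^ 3 + 7680 * MM n a ^ 2 + 640 * MM n a + 56 := by
  have hsq : 160 ^ 2 ≤ MM n a ^ 2 := Nat.pow_le_pow_left hM 2
  rw [chY, if_pos rfl, hgt_two_eq]
  omega

theorem chY_two : chY n a 2 = 11776 * MM n a ^ 2 + 640 * MM n a + 40 := by
  rw [chY, if_neg (by omega), if_neg (by omega), hgt_two_eq]

theorem chY_three : chY n a 3 = 6656 * MM n a ^ 2 + 640 * MM n a + 20 := by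
  rw [chY, if_neg (by omega), if_neg (by omega), hgt_three]

theorem chY_mid {i : ℕ} (hi : i ≤ n) : chY n a (4 + i) =
    6144 * MM n a ^ 2 + 640 * MM n a + 20 -
      819200 * SS n a * (n + 3) ^ 2 * ∑ l ∈ range i, a l := by
  rw [chY, if_neg (by omega), if_neg (by omega), ← hgt_four, ← hgt_mid_add hi]
  unfold CC
  omega

theorem chY_five : chY n a (n + 5) = 5120 * MM n a ^ 2 + 640 * MM n a + 20 := by
  rw [chY, if_neg (by omega), if_neg (by omega), hgt_five]

theorem chY_six : chY n a (n + 6) = 640 * MM n a := by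
  rw [chY, if_neg (by omega), if_neg (by omega), hgt_six]

/-! ### The integer argument -/

theorem sum_range_len (g : ℕ → ℝ) : ∑ i ∈ range (n + 2), g i =
    g 0 + ∑ i ∈ range n, g (i + 1) + g (n + 1) := by
  rw [sum_range_succ, sum_range_succ', add_comm (∑ i ∈ range n, g (i + 1)) (g 0)]

/-- Signs for which the signed sum of the lengths is small solve the partition problem. -/
theorem signs_of_lt (hn : 0 < n) (ha : ∀ i < n, 0 < a i) {e : ℕ → ℤ}
    (he : ∀ i, e i = 1 ∨ e i = -1)
    (h : |∑ i ∈ range (n + 2), (e i : ℝ) * lenP n a (i + 3)| <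
      (4 * ((n + 2 : ℕ) : ℝ) + 4) * (1 / MM n a)) :
    ∃ T ⊆ range n, ∑ i ∈ T, a i = ∑ i ∈ range n \ T, a i := by
  have hS0 := SS_pos hn ha
  have hS : (0 : ℝ) < SS n a := by exact_mod_cast hS0
  have hM : (MM n a : ℝ) = 40 * SS n a * (n + 3) := by
    unfold MM
    push_cast
    ring
  have hb : (4 * ((n + 2 : ℕ) : ℝ) + 4) * (1 / MM n a) = 1 / (10 * SS n a) := by
    rw [hM]
    push_cast
    field_simp
    ring
  -- the integer
  set z : ℤ := e 0 * SS n a + ∑ i ∈ range n, e (i + 1) * a i + e (n + 1) * SS n a with hz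
  have hsum : ∑ i ∈ range (n + 2), (e i : ℝ) * lenP n a (i + 3) = (z : ℝ) / (10 * SS n a) := by
    rw [sum_range_len, show 0 + 3 = 3 from rfl, lenP_three, show n + 1 + 3 = n + 4 from rfl,
      lenP_four, hz]
    push_cast
    rw [add_div, add_div, sum_div]
    congr 1
    · congr 1
      · field_simp
      · refine sum_congr rfl fun i hi => ?_
        rw [show i + 1 + 3 = 4 + i by ring, lenP_mid (mem_range.1 hi)]
        ring
    · field_simp
  rw [hsum, hb, abs_div, abs_of_pos (by positivity : (0 : ℝ) < 10 * SS n a)] at h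
  have hz1 : |(z : ℝ)| < 1 := by
    have := (div_lt_div_iff_of_pos_right (by positivity : (0 : ℝ) < 10 * SS n a)).1 h
    exact this
  have hz0 : z = 0 := by
    have h2 : |z| < 1 := by exact_mod_cast hz1
    exact Int.abs_lt_one_iff.1 h2
  -- the middle sum is small
  have hmid : |∑ i ∈ range n, e (i + 1) * (a i : ℤ)| ≤ SS n a := by
    calc |∑ i ∈ range n, e (i + 1) * (a i : ℤ)| ≤ ∑ i ∈ range n, |e (i + 1) * (a i : ℤ)| :=
          abs_sum_le_sum_abs _ _
      _ = ∑ i ∈ range n, (a i : ℤ) := by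
        refine sum_congr rfl fun i _ => ?_
        rcases he (i + 1) with h3 | h3 <;> rw [h3] <;> simp
      _ = SS n a := by simp [SS]
  have hS1 : (0 : ℤ) < SS n a := by exact_mod_cast hS0
  have hmid0 : ∑ i ∈ range n, e (i + 1) * (a i : ℤ) = 0 := by
    have h3 := abs_le.1 hmid
    rw [hz] at hz0
    rcases he 0 with h4 | h4 <;> rcases he (n + 1) with h5 | h5 <;> rw [h4, h5] at hz0 <;>
      linarith [h3.1, h3.2]
  refine ⟨(range n).filter fun i => e (i + 1) = 1, filter_subset _ _, ?_⟩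
  have h6 : (range n \ (range n).filter fun i => e (i + 1) = 1) =
      (range n).filter fun i => ¬ e (i + 1) = 1 := by
    ext i
    simp only [mem_sdiff, mem_filter, mem_range]
    tauto
  rw [h6]
  have h7 := sum_filter_add_sum_filter_not (range n) (fun i => e (i + 1) = 1)
    (fun i => e (i + 1) * (a i : ℤ))
  rw [hmid0] at h7
  have h8 : ∑ i ∈ (range n).filter (fun i => e (i + 1) = 1), e (i + 1) * (a i : ℤ) =
      ∑ i ∈ (range n).filter (fun i => e (i + 1) = 1), (a i : ℤ) :=
    sum_congr rfl fun i hi => by rw [(mem_filter.1 hi).2, one_mul]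
  have h9 : ∑ i ∈ (range n).filter (fun i => ¬ e (i + 1) = 1), e (i + 1) * (a i : ℤ) =
      -∑ i ∈ (range n).filter (fun i => ¬ e (i + 1) = 1), (a i : ℤ) := by
    rw [← sum_neg_distrib]
    refine sum_congr rfl fun i hi => ?_
    rcases he (i + 1) with h10 | h10
    · exact absurd h10 (mem_filter.1 hi).2
    · rw [h10]
      ring
  rw [h8, h9] at h7
  have : (∑ i ∈ (range n).filter (fun i => e (i + 1) = 1), (a i : ℤ)) =
      ∑ i ∈ (range n).filter (fun i => ¬ e (i + 1) = 1), (a i : ℤ) := by linarith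
  exact_mod_cast this

end

end Pool.Agent.MP_aff8ab_lc.NP
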