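import Pool.Agent.Work.MP_aff8ab_lc.Move

/-! NP-hardness of NESTED-UNLOCK: the thin right triangle. -/

open Set

namespace Pool.Agent.MP_aff8ab_lc.NP

/-- The triangle with vertices `0`, `1`, `1 + D i`. -/
noncomputable def thin (D : ℝ) : Fin (0 + 3) → ℂ := ![0, 1, ⟨1, D⟩]

/-- Its interior. -/
def reg (D : ℝ) : Set ℂ := {z | 0 < z.im ∧ z.im < D * z.re ∧ z.re < 1}

end Pool.Agent.MP_aff8ab_lc.NP
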