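import Pool.Agent.Work.MP_aff8ab_lc.NP.Defs
import Pool.Agent.Work.MP_aff8ab_lc.Frame

/-! The thin right triangle: convexity, interior, and the reduction to motions of the open chain
inside the fixed triangle. -/

open Set

namespace Pool.Agent.MP_aff8ab_lc.NP

theorem area_thin {D : ℝ} (i : Fin (0 + 3)) :
    area (thin D i) (thin D (i + 1)) (thin D (i + 1 + 1)) = D := by
  fin_cases i
  · show area 0 1 ⟨1, D⟩ = D
    simp [area, cr]
  · show area 1 ⟨1, D⟩ 0 = D
    simp [area, cr]
  · show area ⟨1, D⟩ 0 1 = D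
    simp [area, cr]

theorem thin_convex {D : ℝ} (hD : 0 < D) : IsConvexPolygon (thin D) := by
  left
  intro i j h1 h2
  have h : ∀ i j : Fin (0 + 3), j ≠ i → j ≠ i + 1 → j = i + 1 + 1 := by decide
  obtain rfl := h i j h1 h2
  have := area_thin (D := D) i
  rw [area] at this
  rw [this]
  exact hD

theorem reg_convex {D : ℝ} : Convex ℝ (reg D) := by
  intro u hu v hv s t hs ht hst
  obtain ⟨u1, u2, u3⟩ := hu
  obtain ⟨v1, v2, v3⟩ := hv
  have h1 := pos_comb u1 v1 hs ht hst
  have h2 := pos_comb (sub_pos.2 u2) (sub_pos.2 v2) hs ht hst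
  have h3 := pos_comb (sub_pos.2 u3) (sub_pos.2 v3) hs ht hst
  obtain rfl : t = 1 - s := by linarith
  refine ⟨?_, ?_, ?_⟩
  · simp
    linarith
  · simp
    linarith
  · simp
    linarith

theorem reg_open {D : ℝ} : IsOpen (reg D) := by
  have h1 : IsOpen {z : ℂ | 0 < z.im} := isOpen_lt continuous_const Complex.continuous_im
  have h2 : IsOpen {z : ℂ | z.im < D * z.re} :=
    isOpen_lt Complex.continuous_im (continuous_const.mul Complex.continuous_re)
  have h3 : IsOpen {z : ℂ | z.re < 1} := isOpen_lt Complex.continuous_re continuous_const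
  exact h1.inter (h2.inter h3)

theorem reg_subset {D : ℝ} (hD : 0 < D) : reg D ⊆ interior (convexHull ℝ (range (thin D))) := by
  refine interior_maximal ?_ reg_open
  rintro z ⟨h1, h2, h3⟩
  have hz : z = ∑ i : Fin 3, (![1 - z.re, z.re - z.im / D, z.im / D] : Fin 3 → ℝ) i
      • thin D i := by
    rw [Fin.sum_univ_three]
    apply Complex.ext
    · simp [thin]
    · simp [thin]
      field_simp
  rw [hz]
  have h4 : 0 ≤ z.im / D := by positivity
  have h5 : z.im / D < z.re := by rw [div_lt_iff₀ hD]; linarith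
  refine (convex_convexHull ℝ _).sum_mem ?_ ?_ ?_
  · intro i _
    fin_cases i
    · show 0 ≤ 1 - z.re
      linarith
    · show 0 ≤ z.re - z.im / D
      linarith
    · show 0 ≤ z.im / D
      exact h4
  · rw [Fin.sum_univ_three]
    show 1 - z.re + (z.re - z.im / D) + z.im / D = 1
    ring
  · intro i _
    exact subset_convexHull ℝ _ (mem_range_self _)

theorem thin_side {D : ℝ} (i : Fin (0 + 3)) {z : ℂ} (hz : z ∈ cbar (thin D) i) : z ∉ reg D := by
  rintro ⟨h1, h2, h3⟩
  obtain ⟨a, b, ha, hb, hab, rfl⟩ := hz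
  obtain rfl : a = 1 - b := by linarith
  fin_cases i
  · have e : (1 - b) • thin D 0 + b • thin D (0 + 1) = ⟨b, 0⟩ := by
      show (1 - b) • (0 : ℂ) + b • (1 : ℂ) = _
      apply Complex.ext <;> simp
    change 0 < ((1 - b) • thin D 0 + b • thin D (0 + 1)).im at h1
    rw [e] at h1
    exact lt_irrefl _ h1
  · have e : (1 - b) • thin D 1 + b • thin D (1 + 1) = ⟨1, b * D⟩ := by
      show (1 - b) • (1 : ℂ) + b • (⟨1, D⟩ : ℂ) = _
      apply Complex.ext <;> simp
    change ((1 - b) • thin D 1 + b • thin D (1 + 1)).re < 1 at h3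
    rw [e] at h3
    exact lt_irrefl _ h3
  · have e : (1 - b) • thin D 2 + b • thin D (2 + 1) = ⟨1 - b, (1 - b) * D⟩ := by
      show (1 - b) • (⟨1, D⟩ : ℂ) + b • (0 : ℂ) = _
      apply Complex.ext <;> simp
    change ((1 - b) • thin D 2 + b • thin D (2 + 1)).im
      < D * ((1 - b) • thin D 2 + b • thin D (2 + 1)).re at h2
    rw [e] at h2
    simp only at h2
    linarith

/-- A chain in the interior of the triangle which does not intersect itself. -/
theorem nsi_of {D : ℝ} (hD : 0 < D) {k : ℕ} {a : Fin (k + 1) → ℂ} (ha : ∀ j, a j ∈ reg D)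
    (h1 : ∀ i j : Fin k, (i : ℕ) + 1 = j → abar a i ∩ abar a j = {a i.succ})
    (h2 : ∀ i j : Fin k, (i : ℕ) + 1 < j → Disjoint (abar a i) (abar a j)) :
    NonSelfIntersecting (thin D) a where
  closed_consecutive i := seg_inter (by rw [area_thin]; exact hD.ne')
  closed_other i j h1 h2 h3 := by
    exfalso
    revert i j
    decide
  open_consecutive := h1
  open_other := h2
  cross i j := by
    rw [Set.disjoint_left]
    intro z hz1 hz2
    exact thin_side i hz1 (reg_convex.segment_subset (ha _) (ha _) hz2)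

theorem pos_of_mul_pos_left' {a b : ℝ} (h : 0 < a * b) (hb : 0 ≤ b) : 0 < a := by
  by_contra ha
  push Not at ha
  have := mul_nonpos_of_nonpos_of_nonneg ha hb
  linarith

/-- The frame of the triangle. -/
theorem frame {D : ℝ} (hD : 0 < D) {k : ℕ} (hk : 0 < k) {a : Fin (k + 1) → ℂ}
    (ha : ∀ j, a j ∈ reg D) (h : CanStraighten (thin D) a) :
    ∃ A : ℝ → Fin (k + 1) → ℂ, (∀ j, ContinuousOn (fun t => A t j) (Icc 0 1)) ∧
      (∀ t ∈ Icc (0 : ℝ) 1, ∀ j : Fin k,
        dist (A t j.castSucc) (A t j.succ) = dist (a j.castSucc) (a j.succ)) ∧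
      (∀ t ∈ Icc (0 : ℝ) 1, NonSelfIntersecting (thin D) (A t)) ∧ A 0 = a ∧ Straight (A 1) ∧
      (∀ t ∈ Icc (0 : ℝ) 1, ∀ j, A t j ∈ reg D) := by
  obtain ⟨A, h1, h2, h3, h4⟩ := MP_aff8ab_lc.frame hk
    (by rw [show area (thin D 0) (thin D 1) (thin D 2) = D from area_thin 0]; exact hD.ne')
    (fun j => interior_subset (reg_subset hD (ha j))) h
  refine ⟨A, h1, fun t ht => (h3 t ht).1, fun t ht => (h3 t ht).2.1, h2, h4, fun t ht j => ?_⟩
  obtain ⟨b0, b1, b2⟩ := (h3 t ht).2.2 j
  set z := A t j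
  have e0 : bw (thin D 0) (thin D 1) (thin D 2) z = (1 - z.re) * D ^ 2 := by
    show bw 0 1 ⟨1, D⟩ z = _
    simp [bw, area, cr]
    ring
  have e1 : bw (thin D 1) (thin D 2) (thin D 0) z = (D * z.re - z.im) * D := by
    show bw 1 ⟨1, D⟩ 0 z = _
    simp [bw, area, cr]
    left
    ring
  have e2 : bw (thin D 2) (thin D 0) (thin D 1) z = z.im * D := by
    show bw ⟨1, D⟩ 0 1 z = _
    simp [bw, area, cr]
    ring_nf
    simp
  rw [e0] at b0
  rw [e1] at b1
  rw [e2] at b2
  refine ⟨pos_of_mul_pos_left' b2 hD.le, ?_, ?_⟩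
  · have := pos_of_mul_pos_left' b1 hD.le
    linarith
  · have := pos_of_mul_pos_left' b0 (by positivity)
    linarith

end Pool.Agent.MP_aff8ab_lc.NP
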