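import Pool.Agent.Work.MP_aff8ab_lc.NP.Conf
import Pool.Agent.Work.MP_aff8ab_lc.NP.Frame

/-! The instance of the problem which belongs to the natural numbers `a 0, ..., a (n - 1)`:
lengths, critical position, and the explicit rational chain. -/

open Finset

namespace Pool.Agent.MP_aff8ab_lc.NP

/-- The sum of the numbers. -/
def SS (n : ℕ) (a : ℕ → ℕ) : ℕ := ∑ i ∈ range n, a i

/-- The inverse of the small number `W`. -/
def MM (n : ℕ) (a : ℕ → ℕ) : ℕ := 40 * SS n a * (n + 3)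

/-- The lengths of the bars from the second on. -/
noncomputable def lenP (n : ℕ) (a : ℕ → ℕ) (i : ℕ) : ℝ :=
  if i = 2 ∨ i = n + 5 then 1 + (1 / (MM n a : ℝ)) ^ 2 / 256
  else if i = 3 ∨ i = n + 4 then 1 / 10
  else (a (i - 4) : ℝ) / (10 * SS n a)

section

variable {n : ℕ} {a : ℕ → ℕ}

theorem SS_pos (hn : 0 < n) (ha : ∀ i < n, 0 < a i) : 0 < SS n a :=
  sum_pos (fun i hi => ha i (mem_range.1 hi)) ⟨0, mem_range.2 hn⟩

theorem MM_ge (hn : 0 < n) (ha : ∀ i < n, 0 < a i) : 160 ≤ MM n a := by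
  have h := SS_pos hn ha
  unfold MM
  nlinarith

theorem lenP_two : lenP n a 2 = 1 + (1 / (MM n a : ℝ)) ^ 2 / 256 := by simp [lenP]

theorem lenP_last : lenP n a (n + 5) = 1 + (1 / (MM n a : ℝ)) ^ 2 / 256 := by simp [lenP]

theorem lenP_three : lenP n a 3 = 1 / 10 := by
  simp [lenP]

theorem lenP_four : lenP n a (n + 4) = 1 / 10 := by
  simp [lenP]

theorem lenP_mid {i : ℕ} (hi : i < n) : lenP n a (4 + i) = (a i : ℝ) / (10 * SS n a) := by
  rw [lenP, if_neg (by omega), if_neg (by omega), Nat.add_sub_cancel_left]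

/-- Sums over all the bars from the second on. -/
theorem sum_bars (g : ℕ → ℝ) : ∑ i ∈ Ico 2 (n + 6), g i =
    g 2 + g 3 + ∑ i ∈ range n, g (4 + i) + g (n + 4) + g (n + 5) := by
  rw [sum_Ico_succ_top (by omega), sum_Ico_succ_top (by omega), sum_eq_sum_Ico_succ_bot (by omega),
    sum_eq_sum_Ico_succ_bot (by omega), sum_Ico_eq_sum_range]
  have : n + 4 - (2 + 1 + 1) = n := by omega
  rw [this]
  ring

theorem sum_mid (hn : 0 < n) (ha : ∀ i < n, 0 < a i) :
    ∑ i ∈ range n, lenP n a (4 + i) = 1 / 10 := by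
  have h := SS_pos hn ha
  have h' : (0 : ℝ) < SS n a := by exact_mod_cast h
  rw [sum_congr rfl fun i hi => lenP_mid (mem_range.1 hi), ← sum_div]
  have : (∑ i ∈ range n, (a i : ℝ)) = SS n a := by simp [SS]
  rw [this]
  field_simp

theorem lenOK (hn : 0 < n) (ha : ∀ i < n, 0 < a i) : LenOK (n + 6) (1 / MM n a) (lenP n a) := by
  have h1 := SS_pos hn ha
  have h1' : (0 : ℝ) < SS n a := by exact_mod_cast h1
  have h2 := MM_ge hn ha
  have h2' : (160 : ℝ) ≤ MM n a := by exact_mod_cast h2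
  have h3 : 1 / (MM n a : ℝ) ≤ 1 / 160 := one_div_le_one_div_of_le (by norm_num) h2'
  have h4 : 0 < 1 / (MM n a : ℝ) := by positivity
  refine ⟨by omega, h4, by linarith, ?_, lenP_two, ?_⟩
  · intro i hi1 hi2
    unfold lenP
    split_ifs with h5 h6
    · positivity
    · norm_num
    · have h7 : 0 < a (i - 4) := ha _ (by omega)
      have h7' : (0 : ℝ) < a (i - 4) := by exact_mod_cast h7
      positivity
  · rw [sum_bars, sum_mid hn ha, lenP_two, lenP_last, lenP_three, lenP_four]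
    have : (1 / (MM n a : ℝ)) ^ 2 ≤ (1 / 160) ^ 2 := pow_le_pow_left₀ h4.le h3 2
    linarith

/-! ### The critical position -/

/-- The signs of the numbers. -/
def sg (T : Finset ℕ) (i : ℕ) : ℝ := if i ∈ T then 1 else -1

/-- The shrinking factor. -/
noncomputable def rho (W : ℝ) : ℝ := √(1 - (5 * W / 12) ^ 2)

/-- The horizontal extents in the critical position. -/
noncomputable def dP (n : ℕ) (a : ℕ → ℕ) (T : Finset ℕ) (i : ℕ) : ℝ :=
  if i = 2 then xi (1 / MM n a)
  else if i = n + 5 then -xi (1 / MM n a)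
  else if i = 3 then -(rho (1 / MM n a) / 10)
  else if i = n + 4 then rho (1 / MM n a) / 10
  else rho (1 / MM n a) * (sg T (i - 4) * ((a (i - 4) : ℝ) / (10 * SS n a)))

variable {T : Finset ℕ}

theorem dP_two : dP n a T 2 = xi (1 / MM n a) := by simp [dP]

theorem dP_last : dP n a T (n + 5) = -xi (1 / MM n a) := by
  rw [dP, if_neg (by omega), if_pos rfl]

theorem dP_three : dP n a T 3 = -(rho (1 / MM n a) / 10) := by
  rw [dP, if_neg (by omega), if_neg (by omega), if_pos rfl]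

theorem dP_four : dP n a T (n + 4) = rho (1 / MM n a) / 10 := by
  rw [dP, if_neg (by omega), if_neg (by omega), if_neg (by omega), if_pos rfl]

theorem dP_mid {i : ℕ} (hi : i < n) : dP n a T (4 + i) =
    rho (1 / MM n a) * (sg T i * ((a i : ℝ) / (10 * SS n a))) := by
  rw [dP, if_neg (by omega), if_neg (by omega), if_neg (by omega), if_neg (by omega),
    Nat.add_sub_cancel_left]

theorem sg_abs (T : Finset ℕ) (i : ℕ) : |sg T i| = 1 := by
  unfold sg
  split_ifs <;> simp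

theorem sg_sq (T : Finset ℕ) (i : ℕ) : sg T i ^ 2 = 1 := by
  unfold sg
  split_ifs <;> norm_num

theorem rho_sq {W : ℝ} (h0 : 0 < W) (h1 : W ≤ 1 / 100) : rho W ^ 2 = 1 - (5 * W / 12) ^ 2 := by
  rw [rho, Real.sq_sqrt]
  nlinarith

theorem rho_nonneg (W : ℝ) : 0 ≤ rho W := Real.sqrt_nonneg _

theorem rho_lt {W : ℝ} (h0 : 0 < W) (h1 : W ≤ 1 / 100) : rho W < 1 := by
  have h := rho_sq h0 h1
  have h2 := rho_nonneg W
  have h3 : 0 < (5 * W / 12) ^ 2 := by positivity
  nlinarith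

theorem sqrt_shrink {W c : ℝ} (h0 : 0 < W) (h1 : W ≤ 1 / 100) (hc : 0 ≤ c) {e : ℝ}
    (he : e ^ 2 = (rho W * c) ^ 2) : √(c ^ 2 - e ^ 2) = c * (5 * W / 12) := by
  have h : c ^ 2 - e ^ 2 = (c * (5 * W / 12)) ^ 2 := by
    rw [he, mul_pow, rho_sq h0 h1]
    ring
  rw [h, Real.sqrt_sq (by positivity)]

theorem sum_sg (hsum : ∑ i ∈ T, a i = ∑ i ∈ range n \ T, a i) (hT : T ⊆ range n) :
    ∑ i ∈ range n, sg T i * (a i : ℝ) = 0 := by
  have h1 : ∑ i ∈ range n, sg T i * (a i : ℝ) =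
      ∑ i ∈ range n \ T, sg T i * (a i : ℝ) + ∑ i ∈ T, sg T i * (a i : ℝ) :=
    (sum_sdiff hT).symm
  have h2 : ∑ i ∈ T, sg T i * (a i : ℝ) = ∑ i ∈ T, (a i : ℝ) :=
    sum_congr rfl fun i hi => by rw [sg, if_pos hi, one_mul]
  have h3 : ∑ i ∈ range n \ T, sg T i * (a i : ℝ) = -∑ i ∈ range n \ T, (a i : ℝ) := by
    rw [← sum_neg_distrib]
    refine sum_congr rfl fun i hi => ?_
    rw [sg, if_neg (mem_sdiff.1 hi).2]
    ring
  have h4 : (∑ i ∈ T, (a i : ℝ)) = ∑ i ∈ range n \ T, (a i : ℝ) := by exact_mod_cast hsum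
  rw [h1, h2, h3, h4]
  ring

/-- The partial sums of the signed numbers. -/
theorem abs_partial (hn : 0 < n) (ha : ∀ i < n, 0 < a i) {m : ℕ} (hm : m ≤ n) :
    |∑ i ∈ range m, sg T i * ((a i : ℝ) / (10 * SS n a))| ≤ 1 / 10 := by
  have h := SS_pos hn ha
  have h' : (0 : ℝ) < SS n a := by exact_mod_cast h
  calc |∑ i ∈ range m, sg T i * ((a i : ℝ) / (10 * SS n a))|
      ≤ ∑ i ∈ range m, |sg T i * ((a i : ℝ) / (10 * SS n a))| := abs_sum_le_sum_abs _ _
    _ = ∑ i ∈ range m, (a i : ℝ) / (10 * SS n a) := by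
      refine sum_congr rfl fun i _ => ?_
      rw [abs_mul, sg_abs, one_mul, abs_of_nonneg (by positivity)]
    _ ≤ ∑ i ∈ range n, (a i : ℝ) / (10 * SS n a) :=
      sum_le_sum_of_subset_of_nonneg (range_subset_range.2 hm) fun i _ _ => by positivity
    _ = 1 / 10 := by
      rw [← sum_mid hn ha]
      exact sum_congr rfl fun i hi => (lenP_mid (mem_range.1 hi)).symm

theorem partial_dP (hn : 0 < n) (ha : ∀ i < n, 0 < a i)
    (hsum : ∑ i ∈ T, a i = ∑ i ∈ range n \ T, a i) (hT : T ⊆ range n) {j : ℕ} (h2 : 2 ≤ j)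
    (hj : j ≤ n + 6) : 0 ≤ ∑ i ∈ Ico 2 j, dP n a T i ∧
      ∑ i ∈ Ico 2 j, dP n a T i ≤ xi (1 / MM n a) := by
  have e1 := (lenOK hn ha).W0
  have e2 := (lenOK hn ha).W1
  have hrho0 := rho_nonneg (1 / MM n a)
  have hrho1 := rho_lt e1 e2
  have hxi : 1 / 2 ≤ xi (1 / MM n a) := by
    unfold xi
    have : (1 / (MM n a : ℝ)) ^ 2 ≤ (1 / 100) ^ 2 := pow_le_pow_left₀ e1.le e2 2
    linarith
  have hS : (0 : ℝ) < SS n a := by exact_mod_cast SS_pos hn ha
  -- the middle partial sums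
  have hmid : ∀ m ≤ n, ∑ i ∈ Ico 2 (4 + m), dP n a T i = xi (1 / MM n a) -
      rho (1 / MM n a) / 10 + rho (1 / MM n a) *
        ∑ i ∈ range m, sg T i * ((a i : ℝ) / (10 * SS n a)) := by
    intro m hm
    rw [sum_eq_sum_Ico_succ_bot (by omega), sum_eq_sum_Ico_succ_bot (by omega),
      sum_Ico_eq_sum_range]
    have : 4 + m - (2 + 1 + 1) = m := by omega
    rw [this, dP_two, mul_sum]
    have h3 : ∑ i ∈ range m, dP n a T (2 + 1 + 1 + i) = ∑ i ∈ range m,
        rho (1 / MM n a) * (sg T i * ((a i : ℝ) / (10 * SS n a))) :=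
      sum_congr rfl fun i hi => dP_mid (by have := mem_range.1 hi; omega)
    rw [h3, show 2 + 1 = 3 from rfl, dP_three]
    ring
  have htot : ∑ i ∈ range n, sg T i * ((a i : ℝ) / (10 * SS n a)) = 0 := by
    have h3 : ∑ i ∈ range n, sg T i * ((a i : ℝ) / (10 * SS n a)) =
        (∑ i ∈ range n, sg T i * (a i : ℝ)) / (10 * SS n a) := by
      rw [sum_div]
      exact sum_congr rfl fun i _ => by ring
    rw [h3, sum_sg hsum hT, zero_div]
  rcases (by omega : j = 2 ∨ j = 3 ∨ (4 ≤ j ∧ j ≤ n + 4) ∨ j = n + 5 ∨ j = n + 6) with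
    h | h | h | h | h
  · subst h
    rw [Ico_self, sum_empty]
    exact ⟨le_rfl, by linarith⟩
  · subst h
    rw [show Ico 2 3 = {2} from by decide, sum_singleton, dP_two]
    exact ⟨by linarith, le_rfl⟩
  · obtain ⟨m, rfl⟩ := Nat.exists_eq_add_of_le h.1
    rw [hmid m (by omega)]
    have h5 := abs_le.1 (abs_partial (T := T) hn ha (show m ≤ n by omega))
    constructor
    · nlinarith [h5.1, h5.2]
    · nlinarith [h5.1, h5.2]
  · subst h
    rw [sum_Ico_succ_top (by omega), show n + 4 = 4 + n by omega, hmid n le_rfl, htot,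
      show 4 + n = n + 4 by omega, dP_four]
    constructor <;> linarith
  · subst h
    rw [sum_Ico_succ_top (by omega), sum_Ico_succ_top (by omega), show n + 4 = 4 + n by omega,
      hmid n le_rfl, htot, show 4 + n = n + 4 by omega, dP_four, dP_last]
    constructor <;> linarith

/-- **The critical position** which belongs to a solution of the partition problem. -/
theorem exists_crit (hn : 0 < n) (ha : ∀ i < n, 0 < a i) (hT : T ⊆ range n)
    (hsum : ∑ i ∈ T, a i = ∑ i ∈ range n \ T, a i) :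
    ∃ d : ℕ → ℝ, DOK (n + 6) (1 / MM n a) (lenP n a) d ∧
      ∑ i ∈ Ico 2 (n + 6), √(lenP n a i ^ 2 - d i ^ 2) ≤ 3 * (1 / MM n a) / 8 := by
  have e0 := lenOK hn ha
  have e1 := e0.W0
  have e2 := e0.W1
  have hrho0 := rho_nonneg (1 / MM n a)
  have hrho1 := rho_lt e1 e2
  have hS : (0 : ℝ) < SS n a := by exact_mod_cast SS_pos hn ha
  have hw : (1 / (MM n a : ℝ)) ^ 2 ≤ (1 / 100) ^ 2 := pow_le_pow_left₀ e1.le e2 2
  have hw0 : 0 < (1 / (MM n a : ℝ)) ^ 2 := by positivity
  have hxi0 : 0 < xi (1 / MM n a) := by unfold xi; linarith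
  have hxi1 : xi (1 / MM n a) < 1 + (1 / (MM n a : ℝ)) ^ 2 / 256 := by unfold xi; linarith
  refine ⟨dP n a T, ⟨e0, ?_, ?_, ?_, ?_, ?_⟩, ?_⟩
  · intro i h1 h2
    rcases (by omega : i = 2 ∨ i = 3 ∨ (4 ≤ i ∧ i < n + 4) ∨ i = n + 4 ∨ i = n + 5) with
      h | h | h | h | h
    · subst h
      rw [dP_two, lenP_two, abs_of_pos hxi0]
      exact hxi1
    · subst h
      rw [dP_three, lenP_three, abs_neg, abs_of_nonneg (by positivity)]
      linarith
    · obtain ⟨m, rfl⟩ := Nat.exists_eq_add_of_le h.1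
      have hm : m < n := by omega
      have h7 : (0 : ℝ) < a m := by exact_mod_cast ha m hm
      rw [dP_mid hm, lenP_mid hm, abs_mul, abs_mul, sg_abs, one_mul, abs_of_nonneg hrho0,
        abs_of_pos (by positivity)]
      have h8 : 0 < (a m : ℝ) / (10 * SS n a) := by positivity
      nlinarith
    · subst h
      rw [dP_four, lenP_four, abs_of_nonneg (by positivity)]
      linarith
    · subst h
      rw [dP_last, lenP_last, abs_neg, abs_of_pos hxi0]
      exact hxi1
  · rw [dP_two]; exact hxi0.le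
  · rw [dP_two]
  · exact fun j h1 h2 => (partial_dP hn ha hsum hT h1 h2).1
  · exact fun j h1 h2 => (partial_dP hn ha hsum hT h1 h2).2
  · rw [sum_bars]
    have h2 : √(lenP n a 2 ^ 2 - dP n a T 2 ^ 2) = (1 / MM n a) / 8 := by
      rw [lenP_two, dP_two, xi]
      rw [show (1 + (1 / (MM n a : ℝ)) ^ 2 / 256) ^ 2 - (1 - (1 / (MM n a : ℝ)) ^ 2 / 256) ^ 2
        = ((1 / (MM n a : ℝ)) / 8) ^ 2 by ring]
      exact Real.sqrt_sq (by positivity)
    have h5 : √(lenP n a (n + 5) ^ 2 - dP n a T (n + 5) ^ 2) = (1 / MM n a) / 8 := by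
      rw [lenP_last, dP_last, xi]
      rw [show (1 + (1 / (MM n a : ℝ)) ^ 2 / 256) ^ 2 - (-(1 - (1 / (MM n a : ℝ)) ^ 2 / 256)) ^ 2
        = ((1 / (MM n a : ℝ)) / 8) ^ 2 by ring]
      exact Real.sqrt_sq (by positivity)
    have h3 : √(lenP n a 3 ^ 2 - dP n a T 3 ^ 2) = 1 / 10 * (5 * (1 / MM n a) / 12) := by
      rw [lenP_three]
      apply sqrt_shrink e1 e2 (by norm_num)
      rw [dP_three]
      ring
    have h4 : √(lenP n a (n + 4) ^ 2 - dP n a T (n + 4) ^ 2) =
        1 / 10 * (5 * (1 / MM n a) / 12) := by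
      rw [lenP_four]
      apply sqrt_shrink e1 e2 (by norm_num)
      rw [dP_four]
      ring
    have h6 : ∑ i ∈ range n, √(lenP n a (4 + i) ^ 2 - dP n a T (4 + i) ^ 2) =
        1 / 10 * (5 * (1 / MM n a) / 12) := by
      rw [← sum_mid hn ha, sum_mul]
      refine sum_congr rfl fun i hi => ?_
      have hi' := mem_range.1 hi
      apply sqrt_shrink e1 e2
      · rw [lenP_mid hi']
        positivity
      · rw [dP_mid hi', lenP_mid hi']
        have := sg_sq T i
        linear_combination (rho (1 / MM n a) ^ 2 * ((a i : ℝ) / (10 * SS n a)) ^ 2) * this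
    rw [h2, h3, h4, h5, h6]
    linarith

/-! ### The explicit chain -/

/-- The common denominator of the coordinates. -/
def UU (n : ℕ) (a : ℕ → ℕ) : ℕ := 5120 * MM n a ^ 2

/-- The numerators of the lengths. -/
def lenN (n : ℕ) (a : ℕ → ℕ) (i : ℕ) : ℕ :=
  if i = 2 ∨ i = n + 5 then 5120 * MM n a ^ 2 + 20
  else if i = 3 ∨ i = n + 4 then 512 * MM n a ^ 2
  else a (i - 4) * (819200 * SS n a * (n + 3) ^ 2)

/-- The numerators of the heights of the vertices from the second on. -/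
def hgt (n : ℕ) (a : ℕ → ℕ) (j : ℕ) : ℕ := 640 * MM n a + ∑ i ∈ Ico j (n + 6), lenN n a i

/-- The numerators of the abscissas. -/
def chX (n : ℕ) (a : ℕ → ℕ) (j : ℕ) : ℕ :=
  if j ≤ 1 then 5120 * MM n a ^ 2 - 5 else 2048 * MM n a ^ 2 + 7

/-- The numerators of the ordinates. -/
def chY (n : ℕ) (a : ℕ → ℕ) (j : ℕ) : ℕ :=
  if j = 0 then hgt n a 2 - (4096 * MM n a ^ 2 - 16) + 20480 * MM n a ^ 3
  else if j = 1 then hgt n a 2 - (4096 * MM n a ^ 2 - 16)
  else hgt n a j

/-- The open chain of the instance. -/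
noncomputable def chain (n : ℕ) (a : ℕ → ℕ) (j : Fin (n + 6 + 1)) : ℂ :=
  ⟨(chX n a j : ℝ) / UU n a, (chY n a j : ℝ) / UU n a⟩

theorem UU_pos (hn : 0 < n) (ha : ∀ i < n, 0 < a i) : (0 : ℝ) < UU n a := by
  have h : (160 : ℝ) ≤ MM n a := by exact_mod_cast MM_ge hn ha
  unfold UU
  push_cast
  positivity

theorem lenN_div (hn : 0 < n) (ha : ∀ i < n, 0 < a i) {i : ℕ} :
    (lenN n a i : ℝ) / UU n a = lenP n a i := by
  have hM : (160 : ℝ) ≤ MM n a := by exact_mod_cast MM_ge hn ha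
  have hM0 : (0 : ℝ) < MM n a := by linarith
  have hS : (0 : ℝ) < SS n a := by exact_mod_cast SS_pos hn ha
  have hU := UU_pos hn ha
  unfold lenN lenP
  split_ifs with h1 h2
  · unfold UU
    push_cast
    field_simp
    ring
  · unfold UU
    push_cast
    field_simp
    ring
  · rw [div_eq_div_iff hU.ne' (by positivity)]
    have e : (MM n a : ℝ) = 40 * SS n a * (n + 3) := by
      unfold MM
      push_cast
      ring
    unfold UU
    push_cast
    rw [e]
    ring

theorem hgt_div (hn : 0 < n) (ha : ∀ i < n, 0 < a i) (j : ℕ) : (hgt n a j : ℝ) / UU n a =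
    (1 / MM n a) / 8 + ∑ i ∈ Ico j (n + 6), lenP n a i := by
  have hM : (160 : ℝ) ≤ MM n a := by exact_mod_cast MM_ge hn ha
  have hM0 : (0 : ℝ) < MM n a := by linarith
  unfold hgt
  push_cast
  rw [add_div, sum_div]
  congr 1
  · unfold UU
    push_cast
    field_simp
    ring
  · exact sum_congr rfl fun i _ => lenN_div hn ha

theorem confH_start (hn : 0 < n) (ha : ∀ i < n, 0 < a i) {j : ℕ} (hj : 2 ≤ j) :
    confH (n + 6) (1 / MM n a) (lenP n a) 0 0 1 j = (hgt n a j : ℝ) / UU n a := by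
  rw [hgt_div hn ha, confH]
  congr 1
  refine sum_congr rfl fun i hi => ?_
  have h := (lenOK hn ha).pos i (by have := (mem_Ico.1 hi).1; omega) (mem_Ico.1 hi).2
  simp [Real.sqrt_sq h.le]

theorem liftX_start {W : ℝ} : liftX W 0 1 = -(4 / 5 * xi W) := by
  have h1 : √(1 - gg 0 ^ 2) = 4 / 5 := by
    rw [show 1 - gg 0 ^ 2 = (4 / 5 : ℝ) ^ 2 by unfold gg; norm_num]
    exact Real.sqrt_sq (by norm_num)
  unfold liftX
  rw [h1]
  simp
  ring

theorem hgt_two (n : ℕ) (a : ℕ → ℕ) : 4096 * MM n a ^ 2 - 16 ≤ hgt n a 2 := by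
  have h : lenN n a 2 ≤ ∑ i ∈ Ico 2 (n + 6), lenN n a i :=
    single_le_sum (f := lenN n a) (fun i _ => Nat.zero_le _) (mem_Ico.2 ⟨le_rfl, by omega⟩)
  have h2 : lenN n a 2 = 5120 * MM n a ^ 2 + 20 := by simp [lenN]
  unfold hgt
  omega

/-- The explicit chain is the start of the motion. -/
theorem chain_eq (hn : 0 < n) (ha : ∀ i < n, 0 < a i) :
    chain n a = conf (n + 6) (1 / MM n a) (lenP n a) 0 0 1 := by
  have hM2 := MM_ge hn ha
  have hM : (160 : ℝ) ≤ MM n a := by exact_mod_cast hM2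
  have hM0 : (0 : ℝ) < MM n a := by linarith
  have hsq : 160 ^ 2 ≤ MM n a ^ 2 := Nat.pow_le_pow_left hM2 2
  have hy1 : ((hgt n a 2 - (4096 * MM n a ^ 2 - 16) : ℕ) : ℝ) / UU n a =
      confH (n + 6) (1 / MM n a) (lenP n a) 0 0 1 2 + liftX (1 / MM n a) 0 1 := by
    rw [confH_start hn ha le_rfl, liftX_start, Nat.cast_sub (hgt_two n a), Nat.cast_sub (by omega),
      sub_div, sub_eq_add_neg]
    congr 1
    unfold UU xi
    push_cast
    field_simp
    ring
  funext j
  apply Complex.ext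
  · show (chX n a j : ℝ) / UU n a = confX (1 / MM n a) 0 0 1 j
    unfold chX confX
    split_ifs with h
    · rw [Nat.cast_sub (by omega)]
      unfold UU xv
      push_cast
      field_simp
      ring
    · unfold UU xv gg xi
      push_cast
      field_simp
      ring
  · show (chY n a j : ℝ) / UU n a = confY (n + 6) (1 / MM n a) (lenP n a) 0 0 1 j
    unfold chY confY
    split_ifs with h1 h2
    · rw [← hy1, Nat.cast_add, add_div]
      congr 1
      unfold UU
      push_cast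
      field_simp
      ring
    · exact hy1
    · exact (confH_start hn ha (by omega)).symm

theorem dok_zero {k : ℕ} {W : ℝ} {len : ℕ → ℝ} (h : LenOK k W len) : DOK k W len 0 where
  toLenOK := h
  lt i h1 h2 := by simpa using h.pos i h1 h2
  d0 := le_rfl
  dxi := by
    have h0 := h.W0
    have h1 := h.W1
    show (0 : ℝ) ≤ xi W
    unfold xi
    nlinarith
  part0 j _ _ := by simp
  part1 j _ _ := by
    have h0 := h.W0
    have h1 := h.W1
    simp only [Pi.zero_apply, sum_const_zero]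
    unfold xi
    nlinarith

/-- The input condition from the two geometric facts about the start position. -/
theorem isInput_of (hn : 0 < n) (ha : ∀ i < n, 0 < a i)
    (hreg : ∀ j, conf (n + 6) (1 / MM n a) (lenP n a) 0 0 1 j ∈ reg (256 / (1 / MM n a)))
    (hopen : (∀ i j : Fin (n + 6), (i : ℕ) + 1 = j →
      abar (conf (n + 6) (1 / MM n a) (lenP n a) 0 0 1) i ∩
        abar (conf (n + 6) (1 / MM n a) (lenP n a) 0 0 1) j =
        {conf (n + 6) (1 / MM n a) (lenP n a) 0 0 1 i.succ}) ∧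
      ∀ i j : Fin (n + 6), (i : ℕ) + 1 < j →
        Disjoint (abar (conf (n + 6) (1 / MM n a) (lenP n a) 0 0 1) i)
          (abar (conf (n + 6) (1 / MM n a) (lenP n a) 0 0 1) j)) :
    IsInput (thin (256 * MM n a)) (chain n a) := by
  have hM : (160 : ℝ) ≤ MM n a := by exact_mod_cast MM_ge hn ha
  have hM0 : (0 : ℝ) < MM n a := by linarith
  have hD : (0 : ℝ) < 256 * MM n a := by positivity
  have hDe : (256 : ℝ) / (1 / MM n a) = 256 * MM n a := by field_simp
  rw [hDe] at hreg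
  rw [chain_eq hn ha]
  refine ⟨thin_convex hD, fun j => reg_subset hD (hreg j), nsi_of hD hreg hopen.1 hopen.2, ?_, ?_⟩
  · intro i
    fin_cases i
    · exact ⟨0, 0, by simp [thin], by simp [thin]⟩
    · exact ⟨1, 0, by simp [thin], by simp [thin]⟩
    · exact ⟨1, 256 * MM n a, by simp [thin], by simp [thin]⟩
  · intro j
    rw [← chain_eq hn ha]
    refine ⟨(chX n a j : ℚ) / UU n a, (chY n a j : ℚ) / UU n a, ?_, ?_⟩
    · simp [chain]
    · simp [chain]

end

end Pool.Agent.MP_aff8ab_lc.NP
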