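import Pool.Agent.Work.MP_aff8ab_lc.NP.Frame

/-! The critical time: bars at least as long as the base of the thin triangle are never
horizontal, so the second bar has to be horizontal at some time. -/

open Set

namespace Pool.Agent.MP_aff8ab_lc.NP

theorem im_ne_of_dist {D : ℝ} (hD : 0 < D) {z w : ℂ} (hz : z ∈ reg D) (hw : w ∈ reg D)
    (h : 1 ≤ dist z w) : z.im ≠ w.im := by
  intro he
  obtain ⟨z1, z2, z3⟩ := hz
  obtain ⟨w1, w2, w3⟩ := hw
  have hz0 : 0 < z.re := by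
    have : 0 < D * z.re := by linarith
    exact (mul_pos_iff_of_pos_left hD).1 this
  have hw0 : 0 < w.re := by
    have : 0 < D * w.re := by linarith
    exact (mul_pos_iff_of_pos_left hD).1 this
  have hd : dist z w ^ 2 = (z.re - w.re) ^ 2 + (z.im - w.im) ^ 2 := by
    rw [Complex.dist_eq_re_im, Real.sq_sqrt (by positivity)]
  rw [he, sub_self] at hd
  have h1 : (z.re - w.re) ^ 2 < 1 := by
    have a1 : z.re - w.re < 1 := by linarith
    have a2 : -1 < z.re - w.re := by linarith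
    nlinarith
  nlinarith

/-- the order of the end points of a long bar is kept -/
theorem order_kept {D : ℝ} (hD : 0 < D) {k : ℕ} {A : ℝ → Fin (k + 1) → ℂ}
    (hc : ∀ j, ContinuousOn (fun t => A t j) (Icc 0 1))
    (hr : ∀ t ∈ Icc (0 : ℝ) 1, ∀ j, A t j ∈ reg D) {i j : Fin (k + 1)}
    (hl : ∀ t ∈ Icc (0 : ℝ) 1, 1 ≤ dist (A t i) (A t j)) (h0 : (A 0 i).im < (A 0 j).im) :
    ∀ t ∈ Icc (0 : ℝ) 1, (A t i).im < (A t j).im := by
  intro t ht
  by_contra hneg
  push Not at hneg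
  have hcc : ContinuousOn (fun t => (A t i).im - (A t j).im) (Icc 0 t) :=
    ((Complex.continuous_im.comp_continuousOn (hc i)).sub
      (Complex.continuous_im.comp_continuousOn (hc j))).mono (Icc_subset_Icc_right ht.2)
  have := intermediate_value_Icc ht.1 hcc
  obtain ⟨s, hs, hs0⟩ := this ⟨(by linarith : (A 0 i).im - (A 0 j).im ≤ 0), sub_nonneg.2 hneg⟩
  have hs' : s ∈ Icc (0 : ℝ) 1 := ⟨hs.1, hs.2.trans ht.2⟩
  exact im_ne_of_dist hD (hr s hs' i) (hr s hs' j) (hl s hs') (sub_eq_zero.1 hs0)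

/-- The critical time. Vertices `0, 1, 2, 3` are `b, v, u, r`, the last two are `e, b'`. -/
theorem exists_horizontal {D : ℝ} (hD : 0 < D) {k : ℕ} {A : ℝ → Fin (k + 1) → ℂ}
    (hc : ∀ j, ContinuousOn (fun t => A t j) (Icc 0 1))
    (hr : ∀ t ∈ Icc (0 : ℝ) 1, ∀ j, A t j ∈ reg D) {b v u r e b' : Fin (k + 1)} (hbv : b < v)
    (hvu : v < u)
    (l1 : ∀ t ∈ Icc (0 : ℝ) 1, 1 ≤ dist (A t v) (A t b))
    (l2 : ∀ t ∈ Icc (0 : ℝ) 1, 1 ≤ dist (A t r) (A t u))
    (l3 : ∀ t ∈ Icc (0 : ℝ) 1, 1 ≤ dist (A t b') (A t e))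
    (o1 : (A 0 v).im < (A 0 b).im) (o2 : (A 0 r).im < (A 0 u).im) (o3 : (A 0 b').im < (A 0 e).im)
    (o4 : (A 0 v).im < (A 0 u).im) (hs : Straight (A 1)) :
    ∃ t ∈ Icc (0 : ℝ) 1, (A t u).im = (A t v).im ∧ (A t v).im < (A t b).im ∧
      (A t r).im < (A t u).im ∧ (A t b').im < (A t e).im := by
  have k1 := order_kept hD hc hr l1 o1
  have k2 := order_kept hD hc hr l2 o2
  have k3 := order_kept hD hc hr l3 o3
  have h1 : (1 : ℝ) ∈ Icc (0 : ℝ) 1 := ⟨zero_le_one, le_rfl⟩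
  -- at the end `u` is below `v`
  have hend : (A 1 u).im < (A 1 v).im := by
    obtain ⟨p, w, s, hsm, ha⟩ := hs
    have g1 := k1 1 h1
    have e : ∀ i, (A 1 i).im = p.im + s i * w.im := by
      intro i
      rw [ha]
      simp
    rw [e, e] at g1
    rw [e, e]
    have s1 := hsm hbv
    have s2 := hsm hvu
    have hw : w.im < 0 := by
      by_contra hw
      push Not at hw
      nlinarith [mul_nonneg (sub_nonneg.2 s1.le) hw]
    nlinarith [mul_pos (sub_pos.2 s2) (neg_pos.2 hw)]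
  have hcc : ContinuousOn (fun t => (A t u).im - (A t v).im) (Icc 0 1) :=
    (Complex.continuous_im.comp_continuousOn (hc u)).sub
      (Complex.continuous_im.comp_continuousOn (hc v))
  have := intermediate_value_Icc' zero_le_one hcc
  obtain ⟨t, ht, ht0⟩ := this ⟨(by linarith : (A 1 u).im - (A 1 v).im ≤ 0),
    (by linarith : 0 ≤ (A 0 u).im - (A 0 v).im)⟩
  exact ⟨t, ht, sub_eq_zero.1 ht0, k1 t ht, k2 t ht, k3 t ht⟩

end Pool.Agent.MP_aff8ab_lc.NP
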