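import Pool.Agent.Work.MP_aff8ab_lc.NP.Conf

/-! The explicit motion: lengths, continuity, end positions. -/

open Set

namespace Pool.Agent.MP_aff8ab_lc.NP

variable {k : ℕ} {W : ℝ} {len d : ℕ → ℝ} {t s : ℝ}

theorem motion_xi_pos (h : LenOK k W len) : 0 < xi W := by
  have h0 := h.W0
  have h1 := h.W1
  have : W ^ 2 ≤ 1 := by nlinarith
  unfold xi
  linarith

theorem motion_gg_mem (ht : t ∈ Icc (0 : ℝ) 1) : 0 ≤ gg t ∧ gg t ≤ 1 := by
  unfold gg
  constructor <;> linarith [ht.1, ht.2]

theorem motion_gg_sq (ht : t ∈ Icc (0 : ℝ) 1) : 0 ≤ 1 - gg t ^ 2 := by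
  obtain ⟨h1, h2⟩ := motion_gg_mem ht
  nlinarith

/-- the length of the bar `X` -/
theorem motion_x_sq (ht : t ∈ Icc (0 : ℝ) 1) (hs : s ∈ Icc (0 : ℝ) 1) (hts : t = 1 ∨ s = 1) :
    (gg t * s * xi W) ^ 2 + liftX W t s ^ 2 = xi W ^ 2 := by
  unfold liftX
  rcases hts with rfl | rfl
  · have h1 : gg 1 = 1 := by unfold gg; norm_num
    have h2 : √(1 - s ^ 2) ^ 2 = 1 - s ^ 2 := Real.sq_sqrt (by nlinarith [hs.1, hs.2])
    rw [h1]
    norm_num
    linear_combination (xi W ^ 2) * h2
  · have h2 : √(1 - gg t ^ 2) ^ 2 = 1 - gg t ^ 2 := Real.sq_sqrt (motion_gg_sq ht)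
    norm_num
    linear_combination (xi W ^ 2) * h2

theorem motion_abs_lt (h : DOK k W len d) (ht : t ∈ Icc (0 : ℝ) 1) (hs : s ∈ Icc (0 : ℝ) 1)
    {i : ℕ} (h2 : 2 ≤ i) (hk : i < k) : 0 < len i ^ 2 - (t * s * d i) ^ 2 := by
  have h1 := h.lt i h2 hk
  have h0 := h.pos i h2 hk
  have h3 : (t * s) ^ 2 ≤ 1 := by
    have h4 : t * s ≤ 1 := mul_le_one₀ ht.2 hs.1 hs.2
    have h5 : 0 ≤ t * s := mul_nonneg ht.1 hs.1
    nlinarith
  have h4 : d i ^ 2 < len i ^ 2 := sq_lt_sq' (by linarith [neg_abs_le (d i)])
    (lt_of_le_of_lt (le_abs_self _) h1)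
  have h5 : (t * s * d i) ^ 2 ≤ d i ^ 2 := by
    rw [mul_pow]
    nlinarith [sq_nonneg (d i)]
  linarith

theorem motion_dist_two (h : DOK k W len d) (ht : t ∈ Icc (0 : ℝ) 1) (hs : s ∈ Icc (0 : ℝ) 1)
    {i : ℕ} (h2 : 2 ≤ i) (hk : i < k) :
    (confX W d t s i - confX W d t s (i + 1)) ^ 2 +
      (confY k W len d t s i - confY k W len d t s (i + 1)) ^ 2 = len i ^ 2 := by
  have e1 : confX W d t s i - confX W d t s (i + 1) = -(t * s * d i) := by
    unfold confX
    rw [if_neg (by omega), if_neg (by omega), Finset.sum_Ico_succ_top h2]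
    ring
  have e2 : confY k W len d t s i - confY k W len d t s (i + 1) =
      √(len i ^ 2 - (t * s * d i) ^ 2) := by
    unfold confY
    rw [if_neg (by omega), if_neg (by omega), if_neg (by omega), if_neg (by omega)]
    unfold confH
    rw [Finset.sum_eq_sum_Ico_succ_bot hk]
    ring
  rw [e1, e2, Real.sq_sqrt (motion_abs_lt h ht hs h2 hk).le]
  ring

/-- (a) the lengths of the bars -/
theorem conf_dist (h : DOK k W len d) (ht : t ∈ Icc (0 : ℝ) 1) (hs : s ∈ Icc (0 : ℝ) 1)
    (hts : t = 1 ∨ s = 1) (j : Fin k) :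
    dist (conf k W len d t s j.castSucc) (conf k W len d t s j.succ) =
      if (j : ℕ) = 0 then 4 / W else if (j : ℕ) = 1 then xi W else len j := by
  have hW := h.W0
  rw [Complex.dist_eq_re_im]
  show √((confX W d t s (j : ℕ) - confX W d t s ((j : ℕ) + 1)) ^ 2 +
    (confY k W len d t s (j : ℕ) - confY k W len d t s ((j : ℕ) + 1)) ^ 2) = _
  split_ifs with h0 h1
  · rw [h0]
    have e1 : confX W d t s 0 - confX W d t s (0 + 1) = 0 := by
      unfold confX
      rw [if_pos (by omega), if_pos (by omega), sub_self]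
    have e2 : confY k W len d t s 0 - confY k W len d t s (0 + 1) = 4 / W := by
      unfold confY
      rw [if_pos rfl, if_neg (by omega), if_pos (by omega)]
      ring
    rw [e1, e2, zero_pow two_ne_zero, zero_add, Real.sqrt_sq (by positivity)]
  · rw [h1]
    have e1 : confX W d t s 1 - confX W d t s (1 + 1) = gg t * s * xi W := by
      unfold confX
      rw [if_pos le_rfl, if_neg (by omega), Finset.Ico_self, Finset.sum_empty]
      ring
    have e2 : confY k W len d t s 1 - confY k W len d t s (1 + 1) = liftX W t s := by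
      unfold confY
      rw [if_neg (by omega), if_pos rfl, if_neg (by omega), if_neg (by omega)]
      ring
    rw [e1, e2, motion_x_sq ht hs hts, Real.sqrt_sq (motion_xi_pos h.toLenOK).le]
  · rw [motion_dist_two h ht hs (by omega) j.2, Real.sqrt_sq (h.pos _ (by omega) j.2).le]

theorem motion_continuous_X (j : ℕ) :
    Continuous fun p : ℝ × ℝ => confX W d p.1 p.2 j := by
  unfold confX gg
  split_ifs
  · exact continuous_const
  · fun_prop

theorem motion_continuous_H (j : ℕ) :
    Continuous fun p : ℝ × ℝ => confH k W len d p.1 p.2 j := by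
  unfold confH
  exact continuous_const.add (continuous_finsetSum _ fun i _ => by fun_prop)

theorem motion_continuous_L : Continuous fun p : ℝ × ℝ => liftX W p.1 p.2 := by
  unfold liftX gg
  fun_prop

theorem motion_continuous_Y (j : ℕ) :
    Continuous fun p : ℝ × ℝ => confY k W len d p.1 p.2 j := by
  have hH : ∀ j, Continuous fun p : ℝ × ℝ => confH k W len d p.1 p.2 j :=
    fun j => motion_continuous_H j
  have hL : Continuous fun p : ℝ × ℝ => liftX W p.1 p.2 := motion_continuous_L
  unfold confY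
  split_ifs
  · exact ((hH 2).add hL).add continuous_const
  · exact (hH 2).add hL
  · exact hH j

/-- (b) continuity -/
theorem conf_continuous (j : Fin (k + 1)) :
    Continuous fun p : ℝ × ℝ => conf k W len d p.1 p.2 j := by
  have e : (fun p : ℝ × ℝ => conf k W len d p.1 p.2 j) = fun p : ℝ × ℝ =>
      ((confX W d p.1 p.2 j : ℝ) : ℂ) + ((confY k W len d p.1 p.2 j : ℝ) : ℂ) * Complex.I := by
    funext p
    apply Complex.ext <;> simp [conf]
  rw [e]
  exact (Complex.continuous_ofReal.comp (motion_continuous_X j)).add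
    ((Complex.continuous_ofReal.comp (motion_continuous_Y j)).mul continuous_const)

/-- (c) the final position is straight -/
theorem conf_straight (h : DOK k W len d) : Straight (conf k W len d 1 0) := by
  have hW := h.W0
  have hk := h.k4
  have hX : ∀ j, confX W d 1 0 j = xv W := by
    intro j
    unfold confX
    split_ifs
    · rfl
    · ring
  have hxi := motion_xi_pos h.toLenOK
  refine ⟨(xv W : ℂ), -Complex.I, fun j => -confY k W len d 1 0 (j : ℕ), ?_, fun j => ?_⟩
  · rw [Fin.strictMono_iff_lt_succ]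
    intro i
    show -confY k W len d 1 0 (i : ℕ) < -confY k W len d 1 0 ((i : ℕ) + 1)
    rw [neg_lt_neg_iff]
    rcases Nat.lt_or_ge (i : ℕ) 2 with h2 | h2
    · rcases Nat.lt_or_ge (i : ℕ) 1 with h1 | h1
      · obtain h0 : (i : ℕ) = 0 := by omega
        rw [h0]
        unfold confY
        rw [if_pos rfl, if_neg (by omega), if_pos (by omega)]
        have : 0 < 4 / W := by positivity
        linarith
      · obtain h0 : (i : ℕ) = 1 := by omega
        rw [h0]
        unfold confY
        rw [if_neg (by omega), if_neg (by omega), if_neg (by omega), if_pos rfl]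
        have : liftX W 1 0 = xi W := by
          unfold liftX gg
          norm_num
        rw [this]
        linarith
    · unfold confY
      rw [if_neg (by omega), if_neg (by omega), if_neg (by omega), if_neg (by omega)]
      unfold confH
      rw [Finset.sum_eq_sum_Ico_succ_bot i.2]
      have := Real.sqrt_pos.2 (motion_abs_lt h (t := 1) (s := 0) ⟨zero_le_one, le_rfl⟩
        ⟨le_rfl, zero_le_one⟩ h2 i.2)
      exact add_lt_add_of_le_of_lt le_rfl (lt_add_of_pos_left _ this)
  · apply Complex.ext
    · simp [conf, hX]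
    · simp [conf]

/-- (d) the start does not depend on `d` -/
theorem conf_start : conf k W len d 0 1 = conf k W len 0 0 1 := by
  funext j
  unfold conf confX confY confH
  simp

end Pool.Agent.MP_aff8ab_lc.NP
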