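import Pool.Agent.Work.MP_aff8ab_lc.NP.OnlyIf
import Pool.Agent.Work.MP_aff8ab_lc.NP.MotionA
import Pool.Agent.Work.MP_aff8ab_lc.NP.ConfReg

/-! The only-if direction for the public configuration. -/

open Finset

namespace Pool.Agent.MP_aff8ab_lc.NP

private theorem dok_zero' {k : ℕ} {W : ℝ} {len : ℕ → ℝ} (h : LenOK k W len) :
    DOK k W len 0 := by
  have hξ : 0 < xi W := motion_xi_pos h
  refine { toLenOK := h, lt := ?_, d0 := ?_, dxi := ?_, part0 := ?_, part1 := ?_ }
  · intro i h2 hk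
    simpa using h.pos i h2 hk
  · simp
  · simpa using hξ.le
  · intro j _ _
    simp
  · intro j _ _
    simpa using hξ.le

private theorem confY_step {k : ℕ} {W : ℝ} {len : ℕ → ℝ} (h : LenOK k W len) (j : ℕ)
    (hj2 : 2 ≤ j) (hjk : j < k) :
    confY k W len 0 0 1 (j + 1) < confY k W len 0 0 1 j := by
  unfold confY
  rw [if_neg (by omega), if_neg (by omega), if_neg (by omega), if_neg (by omega)]
  unfold confH
  rw [Finset.sum_eq_sum_Ico_succ_bot hjk]
  gcongr
  refine lt_add_of_pos_left _ (Real.sqrt_pos.2 ?_)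
  have := pow_pos (h.pos j hj2 hjk) 2
  simpa using this

/-- **Only if**: if the public configuration can be straightened, then the lengths
`len 3, ..., len (m + 2)` have an almost vanishing signed sum. -/
theorem only_if {m : ℕ} {W : ℝ} {len : ℕ → ℝ} (h : LenOK (m + 4) W len)
    (hγ : 1 ≤ len (m + 3)) (hs : ∑ i ∈ Finset.range m, len (i + 3) ≤ 3 / 10)
    (hc : CanStraighten (thin (256 / W)) (conf (m + 4) W len 0 0 1)) :
    ∃ ε : ℕ → ℤ, (∀ i, ε i = 1 ∨ ε i = -1) ∧
      |∑ i ∈ Finset.range m, (ε i : ℝ) * len (i + 3)| < (4 * m + 4) * W := by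
  have hξ := motion_xi_pos h
  have hW0 := h.W0
  have hdist := fun j : Fin (m + 4) => conf_dist (dok_zero' h) (t := 0) (s := 1)
    ⟨le_refl _, zero_le_one⟩ ⟨zero_le_one, le_refl _⟩ (Or.inr rfl) j
  refine only_if_aux (lam := fun i => len (i + 3)) h.W0 h.W1 (start_reg h) ?_ ?_ ?_ ?_ ?_ hs
    ?_ ?_ ?_ ?_ hc
  · exact (hdist ⟨0, by omega⟩).trans (by simp)
  · exact (hdist ⟨1, by omega⟩).trans (by simp)
  · refine le_of_le_of_eq ?_ (hdist ⟨2, by omega⟩).symm
    simp only [OfNat.ofNat_ne_zero, if_false, OfNat.ofNat_ne_one]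
    rw [h.two]
    have := sq_nonneg W
    linarith
  · intro i hi
    refine (hdist ⟨i + 3, by omega⟩).trans ?_
    rw [if_neg (by simp), if_neg (by simp)]
  · refine le_of_le_of_eq hγ ?_
    refine Eq.trans ?_ (hdist ⟨m + 3, by omega⟩).symm
    rw [if_neg (by simp), if_neg (by simp)]
  · show confY (m + 4) W len 0 0 1 1 < confY (m + 4) W len 0 0 1 0
    unfold confY
    rw [if_neg (by omega), if_pos rfl, if_pos rfl]
    have : 0 < 4 / W := by positivity
    linarith
  · exact confY_step h 2 (le_refl _) (by omega)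
  · exact confY_step h (m + 3) (by omega) (by omega)
  · show confY (m + 4) W len 0 0 1 1 < confY (m + 4) W len 0 0 1 2
    unfold confY
    rw [if_neg (by omega), if_pos rfl, if_neg (by omega), if_neg (by omega)]
    have h1 : liftX W 0 1 < 0 := by
      unfold liftX gg
      have h2 : 0 < √(1 - ((1 - 0) * (3 / 5) + 0 : ℝ) ^ 2) := by
        apply Real.sqrt_pos.2
        norm_num
      have h3 : √(1 - (1 : ℝ) ^ 2) = 0 := by norm_num
      rw [h3]
      have := mul_pos hξ h2
      linarith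
    linarith

end Pool.Agent.MP_aff8ab_lc.NP
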