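import Pool.Agent.Work.MP_aff8ab_lc.NP.Motion
import Pool.Agent.Work.MP_aff8ab_lc.NP.OnlyIfConf
import Pool.Agent.Work.MP_aff8ab_lc.NP.Coord

/-! The reduction from PARTITION to NESTED-UNLOCK. -/

open Finset

namespace Pool.Agent.MP_aff8ab_lc.NP

theorem main_iff (n : ℕ) (a : ℕ → ℕ) (hn : 0 < n) (ha : ∀ i < n, 0 < a i) :
    IsInput (thin (256 * MM n a)) (chain n a) ∧
    (CanStraighten (thin (256 * MM n a)) (chain n a) ↔
      ∃ T ⊆ range n, ∑ i ∈ T, a i = ∑ i ∈ range n \ T, a i) := by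
  have h := lenOK hn ha
  have hM : (0 : ℝ) < MM n a := by
    have := MM_ge hn ha
    exact_mod_cast (by omega : 0 < MM n a)
  have hD : (256 : ℝ) / (1 / MM n a) = 256 * MM n a := by field_simp
  have h1 : (1 : ℝ) ∈ Set.Icc (0 : ℝ) 1 := ⟨zero_le_one, le_rfl⟩
  have h0 : (0 : ℝ) ∈ Set.Icc (0 : ℝ) 1 := ⟨le_rfl, zero_le_one⟩
  refine ⟨isInput_of hn ha (start_reg h) (conf_open (dok_zero h) h0 h1 (Or.inr rfl)), ?_, ?_⟩
  · intro hc
    rw [← hD, chain_eq hn ha] at hc
    have hsum : ∑ i ∈ range (n + 2), lenP n a (i + 3) ≤ 3 / 10 := by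
      have e : ∑ i ∈ range (n + 2), lenP n a (i + 3)
          = lenP n a 3 + ∑ i ∈ range n, lenP n a (4 + i) + lenP n a (n + 4) := by
        rw [sum_range_succ, sum_range_succ']
        simp only [Nat.zero_add]
        rw [show n + 1 + 3 = n + 4 by omega]
        have : ∑ i ∈ range n, lenP n a (i + 1 + 3) = ∑ i ∈ range n, lenP n a (4 + i) :=
          sum_congr rfl fun i _ => by rw [show i + 1 + 3 = 4 + i by omega]
        rw [this]; ring
      rw [e, lenP_three, sum_mid hn ha, lenP_four]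
      norm_num
    obtain ⟨ε, he, hlt⟩ := only_if (m := n + 2) h
      (by rw [show n + 2 + 3 = n + 5 by omega, lenP_last]; nlinarith [sq_nonneg (1 / (MM n a : ℝ))])
      hsum hc
    exact signs_of_lt hn ha he hlt
  · rintro ⟨T, hT, hs⟩
    obtain ⟨d, hd, hsm⟩ := exists_crit hn ha hT hs
    have := canStraighten_conf hd hsm
    rw [hD] at this
    rw [chain_eq hn ha]
    exact this

end Pool.Agent.MP_aff8ab_lc.NP
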