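import Pool.Agent.Work.MP_aff8ab_lc.NP.Frame
import Pool.Agent.Work.MP_aff8ab_lc.NP.MotionA
import Pool.Agent.Work.MP_aff8ab_lc.NP.ConfReg
import Pool.Agent.Work.MP_aff8ab_lc.NP.ConfNSI

/-! The explicit motion. -/

open Set

namespace Pool.Agent.MP_aff8ab_lc.NP

variable {k : ℕ} {W : ℝ} {len d : ℕ → ℝ} {t s : ℝ}

/-- (e) the explicit motion -/
theorem canStraighten_conf (h : DOK k W len d)
    (hsmall : ∑ i ∈ Finset.Ico 2 k, √(len i ^ 2 - d i ^ 2) ≤ 3 * W / 8) :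
    CanStraighten (thin (256 / W)) (conf k W len 0 0 1) := by
  have hW := h.W0
  have key : ∀ θ ∈ Icc (0 : ℝ) 1, min (2 * θ) 1 ∈ Icc (0 : ℝ) 1 ∧
      min (2 - 2 * θ) 1 ∈ Icc (0 : ℝ) 1 ∧ (min (2 * θ) 1 = 1 ∨ min (2 - 2 * θ) 1 = 1) := by
    intro θ hθ
    refine ⟨⟨le_min (by linarith [hθ.1]) zero_le_one, min_le_right _ _⟩,
      ⟨le_min (by linarith [hθ.2]) zero_le_one, min_le_right _ _⟩, ?_⟩
    rcases le_total (2 * θ) 1 with h1 | h1
    · right
      exact min_eq_right (by linarith)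
    · left
      exact min_eq_right h1
  have h01 : (0 : ℝ) ∈ Icc (0 : ℝ) 1 := ⟨le_rfl, zero_le_one⟩
  have h11 : (1 : ℝ) ∈ Icc (0 : ℝ) 1 := ⟨zero_le_one, le_rfl⟩
  refine ⟨fun _ => thin (256 / W), fun θ => conf k W len d (min (2 * θ) 1) (min (2 - 2 * θ) 1),
    ⟨fun i => continuousOn_const, fun j => ?_, fun t _ i => rfl, fun θ hθ j => ?_,
      fun θ hθ => ?_, rfl, ?_⟩, ?_⟩
  · apply Continuous.continuousOn
    have := (conf_continuous (k := k) (W := W) (len := len) (d := d) j).comp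
      (show Continuous fun θ : ℝ => ((min (2 * θ) 1, min (2 - 2 * θ) 1) : ℝ × ℝ) by fun_prop)
    exact this
  · obtain ⟨h1, h2, h3⟩ := key θ hθ
    rw [conf_dist h h1 h2 h3, ← conf_start (d := d), conf_dist h h01 h11 (Or.inr rfl)]
  · obtain ⟨h1, h2, h3⟩ := key θ hθ
    obtain ⟨o1, o2⟩ := conf_open h h1 h2 h3
    exact nsi_of (by positivity) (fun j => conf_reg h hsmall h1 h2 h3 j) o1 o2
  · show conf k W len d (min (2 * 0) 1) (min (2 - 2 * 0) 1) = _
    rw [← conf_start (d := d)]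
    norm_num
  · show Straight (conf k W len d (min (2 * 1) 1) (min (2 - 2 * 1) 1))
    have e1 : min (2 * 1) (1 : ℝ) = 1 := by norm_num
    have e2 : min (2 - 2 * 1) (1 : ℝ) = 0 := by norm_num
    rw [e1, e2]
    exact conf_straight h

end Pool.Agent.MP_aff8ab_lc.NP
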