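import Pool.Agent.Work.MP_aff8ab_lc.NP.Defs

/-! The static lemma: if the bar `X` is horizontal, close to the short side of the triangle, then
the chain `H` is (nearly) a closed rectilinear chain. -/

open Set

namespace Pool.Agent.MP_aff8ab_lc.NP

theorem dist_sq' (p q : ℂ) : dist p q ^ 2 = (q.re - p.re) ^ 2 + (q.im - p.im) ^ 2 := by
  rw [Complex.dist_eq_re_im, Real.sq_sqrt (by positivity)]; ring

/-- The side of the line through `v` and `b` on which `p` lies. -/
def ell (b v p : ℂ) : ℝ := (p.re - v.re) * (b.im - v.im) - (b.re - v.re) * (p.im - v.im)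

/-- Above the level of `v`, on the left of the line from `v` to `b`. -/
def L (b v p : ℂ) : Prop := v.im ≤ p.im ∧ ell b v p ≤ 0

theorem mem_seg {p z : ℂ} {τ : ℝ} (h0 : 0 ≤ τ) (h1 : τ ≤ 1) :
    (⟨p.re + τ * (z.re - p.re), p.im + τ * (z.im - p.im)⟩ : ℂ) ∈ segment ℝ p z := by
  refine ⟨1 - τ, τ, by linarith, h0, by ring, ?_⟩
  apply Complex.ext <;> simp <;> ring

/-- A segment entering the region `L` meets `X` or `B`. -/
theorem enter {b v u p z : ℂ} (huv : u.im = v.im) (hb : v.im < b.im)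
    (hp : ¬ L b v p) (hz : L b v z) (hup : u.re ≤ p.re) (huz : u.re ≤ z.re)
    (hpb : p.im ≤ b.im) (hzb : z.im ≤ b.im) :
    ∃ q ∈ segment ℝ p z, q ∈ segment ℝ v u ∨ q ∈ segment ℝ b v := by
  set q : ℝ → ℂ := fun τ => ⟨p.re + τ * (z.re - p.re), p.im + τ * (z.im - p.im)⟩ with hq
  set g : ℝ → ℝ := fun τ => min ((q τ).im - v.im) (-ell b v (q τ)) with hg
  have hcont : Continuous g := by
    have c1 : Continuous fun τ : ℝ => (q τ).im - v.im := by simp only [hq]; fun_prop
    have c2 : Continuous fun τ : ℝ => -ell b v (q τ) := by simp only [hq, ell]; fun_prop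
    exact c1.min c2
  have hg0 : g 0 ≤ 0 := by
    simp only [hg, hq]
    have e : (⟨p.re + 0 * (z.re - p.re), p.im + 0 * (z.im - p.im)⟩ : ℂ) = p := by
      apply Complex.ext <;> simp
    rw [e]
    by_contra hc
    push Not at hc
    have := lt_min_iff.1 hc
    exact hp ⟨by linarith [this.1], by linarith [this.2]⟩
  have hg1 : 0 ≤ g 1 := by
    simp only [hg, hq]
    have e : (⟨p.re + 1 * (z.re - p.re), p.im + 1 * (z.im - p.im)⟩ : ℂ) = z := by
      apply Complex.ext <;> simp
    rw [e]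
    exact le_min (by linarith [hz.1]) (by linarith [hz.2])
  obtain ⟨τ, hτ, hgτ⟩ := intermediate_value_Icc (zero_le_one' ℝ) hcont.continuousOn ⟨hg0, hg1⟩
  refine ⟨q τ, mem_seg hτ.1 hτ.2, ?_⟩
  have h1 : v.im ≤ (q τ).im := by
    have := hgτ.symm.le.trans (min_le_left _ _); linarith
  have h2 : ell b v (q τ) ≤ 0 := by
    have := hgτ.symm.le.trans (min_le_right _ _); linarith
  have h3 : u.re ≤ (q τ).re := by
    show u.re ≤ p.re + τ * (z.re - p.re)
    nlinarith [hτ.1, hτ.2]
  have h4 : (q τ).im ≤ b.im := by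
    show p.im + τ * (z.im - p.im) ≤ b.im
    nlinarith [hτ.1, hτ.2]
  have h5 : (q τ).im = v.im ∨ ell b v (q τ) = 0 := by
    rcases min_choice ((q τ).im - v.im) (-ell b v (q τ)) with h | h
    · left; have : g τ = (q τ).im - v.im := h
      linarith
    · right; have : g τ = -ell b v (q τ) := h
      linarith
  generalize q τ = w at h1 h2 h3 h4 h5
  rcases h5 with h | h
  · left
    have hw : w.re ≤ v.re := by
      unfold ell at h2
      rw [h, sub_self, mul_zero, sub_zero] at h2
      by_contra hc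
      push Not at hc
      have : 0 < (w.re - v.re) * (b.im - v.im) := mul_pos (by linarith) (by linarith)
      linarith
    rcases eq_or_lt_of_le (h3.trans hw) with h6 | h6
    · have : w = v := Complex.ext (by linarith) h
      rw [this]; exact left_mem_segment ℝ _ _
    · have h7 : 0 < v.re - u.re := by linarith
      have e : w = ⟨v.re + ((v.re - w.re) / (v.re - u.re)) * (u.re - v.re),
          v.im + ((v.re - w.re) / (v.re - u.re)) * (u.im - v.im)⟩ := by
        apply Complex.ext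
        · show w.re = v.re + ((v.re - w.re) / (v.re - u.re)) * (u.re - v.re)
          field_simp; ring
        · show w.im = v.im + ((v.re - w.re) / (v.re - u.re)) * (u.im - v.im)
          rw [h, huv]; ring
      rw [e]
      exact mem_seg (div_nonneg (by linarith) h7.le) ((div_le_one h7).2 (by linarith))
  · right
    have h7 : 0 < b.im - v.im := by linarith
    rw [segment_symm]
    have e : w = ⟨v.re + ((w.im - v.im) / (b.im - v.im)) * (b.re - v.re),
        v.im + ((w.im - v.im) / (b.im - v.im)) * (b.im - v.im)⟩ := by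
      apply Complex.ext
      · show w.re = v.re + ((w.im - v.im) / (b.im - v.im)) * (b.re - v.re)
        unfold ell at h
        field_simp
        linarith
      · show w.im = v.im + ((w.im - v.im) / (b.im - v.im)) * (b.im - v.im)
        field_simp; ring
    rw [e]
    exact mem_seg (div_nonneg (by linarith) h7.le) ((div_le_one h7).2 (by linarith))

section
variable {b v u : ℂ} {W : ℝ}

/-- The data common to the static lemmas: `X = uv` is horizontal at a height less than `W`, it is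
nearly as long as the strip is wide, and `B` is long. -/
structure Cor (b v u : ℂ) (W : ℝ) : Prop where
  W0 : 0 < W
  W1 : W ≤ 1 / 100
  uim : u.im = v.im
  v0 : 0 < v.im
  vW : v.im < W
  ure : u.re ≤ W / 4
  vre : 1 - W / 4 ≤ v.re
  v1 : v.re < 1
  b0 : 0 < b.re
  b1 : b.re < 1
  bim : 3 / W < b.im - v.im

theorem Cor.big (h : Cor b v u W) : 300 < b.im - v.im := by
  have h1 : (300 : ℝ) ≤ 3 / W := by
    rw [le_div_iff₀ h.W0]; nlinarith [h.W1]
  exact h1.trans_lt h.bim

/-- A point not in `L`, above the level of `X` and not too high is close to the right wall. -/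
theorem Cor.right (h : Cor b v u W) {p : ℂ} (hp : ¬ L b v p) (h1 : v.im ≤ p.im)
    (h2 : p.im ≤ v.im + 3 / 10) : 1 - W / 2 < p.re := by
  have hl : 0 < ell b v p := by
    by_contra hc
    push Not at hc
    exact hp ⟨h1, hc⟩
  unfold ell at hl
  have hB := h.big
  have h3 : -(3 / 10) ≤ (b.re - v.re) * (p.im - v.im) := by
    have : -1 ≤ b.re - v.re := by linarith [h.b0, h.v1]
    nlinarith
  have h4 : -(3 / 10) < (p.re - v.re) * (b.im - v.im) := by linarith
  have h5 : (3 : ℝ) < (b.im - v.im) * W := by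
    have := h.bim
    rwa [div_lt_iff₀ h.W0] at this
  by_contra hc
  push Not at hc
  have h6 : p.re - v.re ≤ -(W / 4) := by linarith [h.vre]
  have h7 : (p.re - v.re) * (b.im - v.im) ≤ -(W / 4) * (b.im - v.im) :=
    mul_le_mul_of_nonneg_right h6 (by linarith)
  nlinarith

/-- On the level of `X`, a point not in `L` is on the right of `v`. -/
theorem Cor.level (h : Cor b v u W) {p : ℂ} (hp : ¬ L b v p) (h1 : p.im = v.im) :
    v.re < p.re := by
  have hl : 0 < ell b v p := by
    by_contra hc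
    push Not at hc
    exact hp ⟨h1.ge, hc⟩
  unfold ell at hl
  rw [h1, sub_self, mul_zero, sub_zero] at hl
  have hB := h.big
  by_contra hc
  push Not at hc
  have : 0 ≤ (v.re - p.re) * (b.im - v.im) := mul_nonneg (by linarith) (by linarith)
  nlinarith

/-- A segment avoiding `X` and `B` and starting outside `L` stays outside `L`, as long as it is
not beyond `u` on the left. -/
theorem Cor.stay (h : Cor b v u W) {p q : ℂ} (hp : ¬ L b v p)
    (dX : Disjoint (segment ℝ p q) (segment ℝ v u)) (dB : Disjoint (segment ℝ p q) (segment ℝ b v))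
    (hp1 : u.re ≤ p.re) (hp2 : p.im ≤ v.im + 3 / 10) {z : ℂ} (hz : z ∈ segment ℝ p q)
    (hz1 : u.re ≤ z.re) (hz2 : z.im ≤ v.im + 3 / 10) : ¬ L b v z := by
  intro hL
  have hB := h.big
  obtain ⟨w, hw, hw'⟩ := enter h.uim (by linarith) hp hL hp1 hz1 (by linarith) (by linarith)
  have hw2 : w ∈ segment ℝ p q :=
    (convex_segment p q).segment_subset (left_mem_segment ℝ p q) hz hw
  rcases hw' with h1 | h1
  · exact Set.disjoint_left.1 dX hw2 h1
  · exact Set.disjoint_left.1 dB hw2 h1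

/-- A bar from below the level of `X` to a point above. -/
theorem Cor.mixed (h : Cor b v u W) {p q : ℂ} (hpi : p.im < v.im) (hqi : v.im ≤ q.im)
    (dX : Disjoint (segment ℝ p q) (segment ℝ v u)) (dB : Disjoint (segment ℝ p q) (segment ℝ b v))
    (hp0 : 0 < p.im) (hp1 : 1 / 2 ≤ p.re) (hp3 : p.re < 1) (hq1 : 1 / 2 ≤ q.re)
    (hq3 : q.re < 1) (hq2 : q.im ≤ v.im + 3 / 10) :
    |q.re - p.re| ≤ 2 * W ∨ |q.im - p.im| ≤ 2 * W := by
  have hp : ¬ L b v p := fun hL => absurd hL.1 (by linarith)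
  have hu : u.re ≤ 1 / 2 := by linarith [h.ure, h.W1]
  have hq : ¬ L b v q := h.stay hp dX dB (by linarith) (by linarith) (right_mem_segment ℝ _ _)
    (by linarith) hq2
  have hqr := h.right hq hqi hq2
  have hd : 0 < q.im - p.im := by linarith
  set τ : ℝ := (v.im - p.im) / (q.im - p.im) with hτ
  have hτd : τ * (q.im - p.im) = v.im - p.im := by rw [hτ]; field_simp
  have hτ0 : 0 ≤ τ := div_nonneg (by linarith) hd.le
  have hτ1 : τ ≤ 1 := (div_le_one hd).2 (by linarith)
  have hmem := mem_seg (p := p) (z := q) hτ0 hτ1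
  have hnL := h.stay hp dX dB (by linarith) (by linarith) hmem
    (by show u.re ≤ p.re + τ * (q.re - p.re); nlinarith)
    (by show p.im + τ * (q.im - p.im) ≤ v.im + 3 / 10; rw [hτd]; linarith)
  have hlev := h.level hnL (by show p.im + τ * (q.im - p.im) = v.im; rw [hτd]; ring)
  have hlev : v.re < p.re + τ * (q.re - p.re) := hlev
  have hv := h.vre
  have hW := h.W0
  have hvW := h.vW
  -- the part above the level
  have h1 : |(1 - τ) * (q.re - p.re)| < W := by
    have e : (1 - τ) * (q.re - p.re) = q.re - (p.re + τ * (q.re - p.re)) := by ring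
    rw [e, abs_lt]
    have h2 : p.re + τ * (q.re - p.re) ≤ 1 := by nlinarith
    constructor <;> linarith
  rcases le_total |q.re - p.re| (q.im - p.im) with hc | hc
  · left
    have h2 : |q.re - p.re| = |(1 - τ) * (q.re - p.re)| + τ * |q.re - p.re| := by
      rw [abs_mul, abs_of_nonneg (by linarith : (0:ℝ) ≤ 1 - τ)]; ring
    have h3 : τ * |q.re - p.re| ≤ τ * (q.im - p.im) := mul_le_mul_of_nonneg_left hc hτ0
    rw [hτd] at h3
    linarith
  · right
    rw [abs_of_pos hd]
    have h2 : q.im - p.im = (1 - τ) * (q.im - p.im) + (v.im - p.im) := by rw [← hτd]; ring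
    have h3 : (1 - τ) * (q.im - p.im) ≤ (1 - τ) * |q.re - p.re| :=
      mul_le_mul_of_nonneg_left hc (by linarith)
    rw [abs_mul, abs_of_nonneg (by linarith : (0:ℝ) ≤ 1 - τ)] at h1
    linarith

/-- A bar of `H` is nearly horizontal or nearly vertical. -/
theorem Cor.bar (h : Cor b v u W) {p q : ℂ} (hp : ¬ L b v p) (hq : ¬ L b v q)
    (dX : Disjoint (segment ℝ p q) (segment ℝ v u)) (dB : Disjoint (segment ℝ p q) (segment ℝ b v))
    (hp0 : 0 < p.im) (hp1 : 1 / 2 ≤ p.re) (hp3 : p.re < 1) (hp2 : p.im ≤ v.im + 3 / 10)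
    (hq0 : 0 < q.im) (hq1 : 1 / 2 ≤ q.re) (hq3 : q.re < 1) (hq2 : q.im ≤ v.im + 3 / 10) :
    |q.re - p.re| ≤ 2 * W ∨ |q.im - p.im| ≤ 2 * W := by
  have hW := h.W0
  have hvW := h.vW
  rcases lt_or_ge p.im v.im with h1 | h1 <;> rcases lt_or_ge q.im v.im with h2 | h2
  · right
    rw [abs_le]; constructor <;> linarith
  · exact h.mixed h1 h2 dX dB hp0 hp1 hp3 hq1 hq3 hq2
  · rw [segment_symm] at dX dB
    rcases h.mixed h2 h1 dX dB hq0 hq1 hq3 hp1 hp3 hp2 with h3 | h3
    · left; rwa [abs_sub_comm]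
    · right; rwa [abs_sub_comm]
  · left
    have := h.right hp h1 hp2
    have := h.right hq h2 hq2
    rw [abs_le]; constructor <;> linarith

/-- The sign of a nearly axis-parallel bar. -/
theorem sign_of {p q : ℂ} {l : ℝ} (hW : 0 ≤ W) (hl : dist p q = l)
    (hpq : |q.re - p.re| ≤ 2 * W ∨ |q.im - p.im| ≤ 2 * W) :
    ∃ ε : ℤ, (ε = 1 ∨ ε = -1) ∧
      |(ε : ℝ) * l - ((q.re + q.im) - (p.re + p.im))| ≤ 4 * W := by
  have hl0 : 0 ≤ l := hl ▸ dist_nonneg
  have hsq : l ^ 2 = (q.re - p.re) ^ 2 + (q.im - p.im) ^ 2 := by rw [← hl, dist_sq']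
  have key : ∀ x y : ℝ, l ^ 2 = x ^ 2 + y ^ 2 → |y| ≤ 2 * W → ∃ ε : ℤ, (ε = 1 ∨ ε = -1) ∧
      |(ε : ℝ) * l - (x + y)| ≤ 4 * W := by
    intro x y hxy hy
    have h1 : |x| ≤ l := abs_le_of_sq_le_sq (by nlinarith [sq_nonneg y]) hl0
    have h2 : l ≤ |x| + |y| := by
      refine le_of_sq_le_sq ?_ (by positivity)
      nlinarith [sq_abs x, sq_abs y, mul_nonneg (abs_nonneg x) (abs_nonneg y)]
    rcases le_total 0 x with hx | hx
    · refine ⟨1, Or.inl rfl, ?_⟩
      rw [abs_of_nonneg hx] at h1 h2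
      have := abs_le.1 hy
      rw [abs_le]; push_cast
      constructor <;> linarith
    · refine ⟨-1, Or.inr rfl, ?_⟩
      rw [abs_of_nonpos hx] at h1 h2
      have := abs_le.1 hy
      rw [abs_le]; push_cast
      constructor <;> linarith
  rcases hpq with h | h
  · obtain ⟨ε, h1, h2⟩ := key (q.im - p.im) (q.re - p.re) (by rw [hsq]; ring) h
    refine ⟨ε, h1, ?_⟩
    rwa [show (q.re + q.im) - (p.re + p.im) = q.im - p.im + (q.re - p.re) by ring]
  · obtain ⟨ε, h1, h2⟩ := key (q.re - p.re) (q.im - p.im) hsq h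
    refine ⟨ε, h1, ?_⟩
    rwa [show (q.re + q.im) - (p.re + p.im) = q.re - p.re + (q.im - p.im) by ring]

/-- The position of the end `e` of `H`, forced by the bar `B'`. -/
theorem Cor.end_ (h : Cor b v u W) {e w : ℂ} (he : ¬ L b v e)
    (dX : Disjoint (segment ℝ e w) (segment ℝ v u)) (dB : Disjoint (segment ℝ e w) (segment ℝ b v))
    (he0 : 0 < e.im) (he1 : 1 / 2 < e.re) (he3 : e.re < 1) (he2 : e.im ≤ v.im + 3 / 10)
    (hw0 : 0 < w.im) (hw1 : 0 < w.re) (hw2 : w.re < 1) (hd : 1 ≤ dist e w) (hwe : w.im < e.im) :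
    e.im ≤ 2 * W ∧ 1 - W ≤ e.re := by
  have hW := h.W0
  have hW1 := h.W1
  have hvW := h.vW
  have hv0 := h.v0
  have hB := h.big
  have hsq : 1 ≤ (w.re - e.re) ^ 2 + (w.im - e.im) ^ 2 := by
    rw [← dist_sq']; nlinarith
  have h1 : (w.im - e.im) ^ 2 ≤ (31 / 100) ^ 2 := by
    apply sq_le_sq'  <;> linarith
  have h2 : (9 / 10 : ℝ) ^ 2 < (w.re - e.re) ^ 2 := by nlinarith
  have h3 : 9 / 10 < e.re - w.re := by
    by_contra hc
    push Not at hc
    have : (w.re - e.re) ^ 2 ≤ (9 / 10 : ℝ) ^ 2 := by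
      apply sq_le_sq' <;> linarith
    linarith
  rcases lt_or_ge e.im v.im with h4 | h4
  · refine ⟨by linarith, ?_⟩
    by_contra hc
    push Not at hc
    have h5 : (w.im - e.im) ^ 2 ≤ W ^ 2 := by apply sq_le_sq' <;> linarith
    have h6 : (w.re - e.re) ^ 2 ≤ (1 - W) ^ 2 := by apply sq_le_sq' <;> linarith
    nlinarith
  · set τ : ℝ := (e.re - 1 / 2) / (e.re - w.re) with hτ
    have hdx : 0 < e.re - w.re := by linarith
    have hτ0 : 0 ≤ τ := div_nonneg (by linarith) hdx.le
    have hτ1 : τ ≤ 1 := (div_le_one hdx).2 (by linarith)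
    have hτd : τ * (w.re - e.re) = 1 / 2 - e.re := by rw [hτ]; field_simp; ring
    have hmem := mem_seg (p := e) (z := w) hτ0 hτ1
    rw [hτd] at hmem
    have hu : u.re ≤ 1 / 2 := by linarith [h.ure]
    set y : ℝ := e.im + τ * (w.im - e.im) with hy
    have hye : y ≤ e.im := by rw [hy]; nlinarith
    have hnL := h.stay he dX dB (by linarith) he2 hmem
      (by show u.re ≤ e.re + (1 / 2 - e.re); linarith)
      (by show y ≤ v.im + 3 / 10; linarith)
    have hyv : y < v.im := by
      by_contra hc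
      push Not at hc
      have := h.right hnL hc (by show y ≤ v.im + 3 / 10; linarith)
      have : 1 - W / 2 < e.re + (1 / 2 - e.re) := this
      linarith
    -- the point on the level of `X`
    set σ : ℝ := (e.im - v.im) / (e.im - w.im) with hσ
    have hdy : 0 < e.im - w.im := by linarith
    have hσ0 : 0 ≤ σ := div_nonneg (by linarith) hdy.le
    have hσd : σ * (w.im - e.im) = v.im - e.im := by rw [hσ]; field_simp; ring
    have hστ : σ ≤ τ := by
      by_contra hc
      push Not at hc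
      have : σ * (e.im - w.im) = e.im - v.im := by linarith
      have : τ * (e.im - w.im) = e.im - y := by rw [hy]; ring
      nlinarith
    have hmem2 := mem_seg (p := e) (z := w) hσ0 (hστ.trans hτ1)
    rw [hσd] at hmem2
    have hx : 1 / 2 ≤ e.re + σ * (w.re - e.re) := by nlinarith
    have hnL2 := h.stay he dX dB (by linarith) he2 hmem2 (hu.trans hx)
      (by show e.im + (v.im - e.im) ≤ v.im + 3 / 10; linarith)
    have hlev := h.level hnL2 (by show e.im + (v.im - e.im) = v.im; ring)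
    have hlev : v.re < e.re + σ * (w.re - e.re) := hlev
    have hvr := h.vre
    have h7 : σ * (e.re - w.re) < W / 4 := by linarith
    have h8 : σ * (e.im - w.im) ≤ σ * (e.re - w.re) :=
      mul_le_mul_of_nonneg_left (by linarith) hσ0
    have h9 : 0 ≤ σ * (e.re - w.re) := mul_nonneg hσ0 hdx.le
    constructor <;> linarith
end


/-- **The static lemma**, on the vertices `b = P 0`, `v = P 1`, `u = P 2`, `r = P 3`, ...,
`e = P (m + 3)`, `b' = P (m + 4)`. -/
theorem static {m : ℕ} {P : ℕ → ℂ} {W : ℝ} {lam : ℕ → ℝ} (hW : 0 < W) (hW1 : W ≤ 1 / 100)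
    (strip : ∀ i ≤ m + 4, 0 < (P i).im ∧ 0 < (P i).re ∧ (P i).re < 1)
    (huv : (P 2).im = (P 1).im) (hvW : (P 1).im < W)
    (hu : (P 2).re ≤ W / 4) (hv : 1 - W / 4 ≤ (P 1).re)
    (hB : 4 / W ≤ dist (P 0) (P 1)) (hb : (P 1).im < (P 0).im)
    (hY : 1 ≤ dist (P 2) (P 3)) (hr : (P 3).im < (P 2).im)
    (hH : ∀ i < m, dist (P (i + 3)) (P (i + 4)) = lam i)
    (hsum : ∑ i ∈ Finset.range m, lam i ≤ 3 / 10)
    (hB' : 1 ≤ dist (P (m + 3)) (P (m + 4))) (hb' : (P (m + 4)).im < (P (m + 3)).im)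
    (dX : ∀ i ≤ m, Disjoint (segment ℝ (P (i + 3)) (P (i + 4))) (segment ℝ (P 1) (P 2)))
    (dB : ∀ i ≤ m, Disjoint (segment ℝ (P (i + 3)) (P (i + 4))) (segment ℝ (P 0) (P 1))) :
    ∃ ε : ℕ → ℤ, (∀ i, ε i = 1 ∨ ε i = -1) ∧
      |∑ i ∈ Finset.range m, (ε i : ℝ) * lam i| < (4 * m + 4) * W := by
  obtain ⟨b0, b1, b2⟩ := strip 0 (by omega)
  obtain ⟨v0, v1, v2⟩ := strip 1 (by omega)
  obtain ⟨u0, u1, u2⟩ := strip 2 (by omega)
  obtain ⟨r0, r1, r2⟩ := strip 3 (by omega)
  have hC : Cor (P 0) (P 1) (P 2) W := by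
    refine ⟨hW, hW1, huv, v0, hvW, hu, hv, v2, b1, b2, ?_⟩
    have h1 : (4 / W) ^ 2 ≤ ((P 1).re - (P 0).re) ^ 2 + ((P 1).im - (P 0).im) ^ 2 := by
      rw [← dist_sq']
      exact pow_le_pow_left₀ (by positivity) hB 2
    have h2 : ((P 1).re - (P 0).re) ^ 2 < 1 := by
      rw [sq_lt_one_iff_abs_lt_one, abs_lt]; constructor <;> linarith
    have h3 : (3 / W) ^ 2 < ((P 0).im - (P 1).im) ^ 2 := by
      have h4 : (100 : ℝ) ≤ 1 / W := by rw [le_div_iff₀ hW]; linarith
      have h5 : (4 / W) ^ 2 = 16 * (1 / W) ^ 2 := by ring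
      have h6 : (3 / W) ^ 2 = 9 * (1 / W) ^ 2 := by ring
      rw [h5] at h1
      rw [h6]
      nlinarith
    exact lt_of_pow_lt_pow_left₀ 2 (by linarith) h3
  have hlam : ∀ i < m, 0 ≤ lam i := fun i hi => by rw [← hH i hi]; exact dist_nonneg
  -- the position of `r`
  have hr1 : 1 - W ≤ (P 3).re := by
    have h1 : 1 ≤ ((P 3).re - (P 2).re) ^ 2 + ((P 3).im - (P 2).im) ^ 2 := by
      rw [← dist_sq']; nlinarith
    have h2 : ((P 3).im - (P 2).im) ^ 2 ≤ W ^ 2 := by apply sq_le_sq' <;> linarith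
    by_contra hc
    push Not at hc
    have h3 : ((P 3).re - (P 2).re) ^ 2 ≤ (1 - W) ^ 2 := by apply sq_le_sq' <;> linarith
    nlinarith
  -- the vertices of `H` are close to `r`
  have hdist : ∀ i ≤ m, dist (P 3) (P (i + 3)) ≤ ∑ j ∈ Finset.range i, lam j := by
    intro i
    induction i with
    | zero => intro _; simp
    | succ i ih =>
      intro hi
      rw [Finset.sum_range_succ]
      refine (dist_triangle _ (P (i + 3)) _).trans (add_le_add (ih (by omega)) ?_)
      rw [← hH i (by omega)]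
  have hdist' : ∀ i ≤ m, dist (P 3) (P (i + 3)) ≤ 3 / 10 := fun i hi =>
    (hdist i hi).trans ((Finset.sum_le_sum_of_subset_of_nonneg
      (Finset.range_subset_range.2 hi) fun j hj _ => hlam j (Finset.mem_range.1 hj)).trans hsum)
  have hre : ∀ i ≤ m, 1 / 2 < (P (i + 3)).re := by
    intro i hi
    have h1 := (Complex.abs_re_le_norm (P 3 - P (i + 3))).trans
      ((Complex.dist_eq _ _).symm.le.trans (hdist' i hi))
    rw [Complex.sub_re, abs_le] at h1
    linarith [h1.2]
  have him : ∀ i ≤ m, (P (i + 3)).im ≤ (P 1).im + 3 / 10 := by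
    intro i hi
    have h1 := (Complex.abs_im_le_norm (P 3 - P (i + 3))).trans
      ((Complex.dist_eq _ _).symm.le.trans (hdist' i hi))
    rw [Complex.sub_im, abs_le] at h1
    linarith [h1.1]
  -- none is in `L`
  have hnL : ∀ i ≤ m, ¬ L (P 0) (P 1) (P (i + 3)) := by
    intro i
    induction i with
    | zero => intro _ hL; exact absurd hL.1 (by show ¬ (P 1).im ≤ (P 3).im; linarith)
    | succ i ih =>
      intro hi
      have h1 := hre i (by omega)
      have h2 := hre (i + 1) hi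
      exact hC.stay (ih (by omega)) (dX i (by omega)) (dB i (by omega))
        (by linarith) (him i (by omega)) (right_mem_segment ℝ _ _)
        (by show (P 2).re ≤ (P (i + 1 + 3)).re; linarith) (him (i + 1) hi)
  obtain ⟨e1, e2⟩ := hC.end_ (hnL m le_rfl) (dX m le_rfl) (dB m le_rfl) (strip (m + 3) (by omega)).1
    (hre m le_rfl) (strip (m + 3) (by omega)).2.2 (him m le_rfl) (strip (m + 4) le_rfl).1
    (strip (m + 4) le_rfl).2.1 (strip (m + 4) le_rfl).2.2 hB' hb'
  have hbar : ∀ i < m, ∃ ε : ℤ, (ε = 1 ∨ ε = -1) ∧ |(ε : ℝ) * lam i -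
      (((P (i + 1 + 3)).re + (P (i + 1 + 3)).im) - ((P (i + 3)).re + (P (i + 3)).im))|
        ≤ 4 * W := by
    intro i hi
    refine sign_of hW.le (hH i hi) ?_
    exact hC.bar (hnL i hi.le) (hnL (i + 1) hi) (dX i hi.le) (dB i hi.le)
      (strip (i + 3) (by omega)).1 (hre i hi.le).le (strip (i + 3) (by omega)).2.2 (him i hi.le)
      (strip (i + 4) (by omega)).1 (hre (i + 1) hi).le (strip (i + 4) (by omega)).2.2
      (him (i + 1) hi)
  choose! ε hε1 hε2 using hbar
  refine ⟨fun i => if i < m then ε i else 1, ?_, ?_⟩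
  · intro i
    by_cases hi : i < m
    · simp only [hi, if_true]; exact hε1 i hi
    · simp only [hi, if_false]; exact Or.inl trivial
  · have h1 : ∑ i ∈ Finset.range m, (((if i < m then ε i else 1 : ℤ)) : ℝ) * lam i
        = ∑ i ∈ Finset.range m, ((ε i : ℝ) * lam i -
          (((P (i + 1 + 3)).re + (P (i + 1 + 3)).im) - ((P (i + 3)).re + (P (i + 3)).im)))
          + (((P (m + 3)).re + (P (m + 3)).im) - ((P 3).re + (P 3).im)) := by
      rw [Finset.sum_sub_distrib,
        Finset.sum_range_sub (fun i => (P (i + 3)).re + (P (i + 3)).im)]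
      rw [Finset.sum_congr rfl (g := fun i => (ε i : ℝ) * lam i)]
      · simp only [Nat.zero_add]; ring
      · intro i hi
        rw [if_pos (Finset.mem_range.1 hi)]
    show |∑ i ∈ Finset.range m, (((if i < m then ε i else 1 : ℤ)) : ℝ) * lam i| < _
    rw [h1]
    have h2 : |∑ i ∈ Finset.range m, ((ε i : ℝ) * lam i -
          (((P (i + 1 + 3)).re + (P (i + 1 + 3)).im) - ((P (i + 3)).re + (P (i + 3)).im)))|
          ≤ m * (4 * W) := by
      refine (Finset.abs_sum_le_sum_abs _ _).trans ?_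
      refine (Finset.sum_le_sum fun i hi => hε2 i (Finset.mem_range.1 hi)).trans ?_
      simp
    have h3 : |((P (m + 3)).re + (P (m + 3)).im) - ((P 3).re + (P 3).im)| < 4 * W := by
      have h4 := (strip (m + 3) (by omega)).2.2
      have h5 := (strip (m + 3) (by omega)).1
      rw [abs_lt]; constructor <;> linarith
    have h4 := abs_add_le (∑ i ∈ Finset.range m, ((ε i : ℝ) * lam i -
          (((P (i + 1 + 3)).re + (P (i + 1 + 3)).im) - ((P (i + 3)).re + (P (i + 3)).im))))
      (((P (m + 3)).re + (P (m + 3)).im) - ((P 3).re + (P 3).im))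
    calc _ ≤ _ := h4
      _ < m * (4 * W) + 4 * W := add_lt_add_of_le_of_lt h2 h3
      _ = _ := by ring

end Pool.Agent.MP_aff8ab_lc.NP
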