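import Pool.Agent.Work.MP_aff8ab_lc.NP.Ivt
import Pool.Agent.Work.MP_aff8ab_lc.NP.Static
import Pool.Agent.Work.MP_aff8ab_lc.NP.Conf

/-! The only-if direction. -/

open Set

namespace Pool.Agent.MP_aff8ab_lc.NP

/-- The reflection of the strip `0 < re < 1`. -/
def mir (z : ℂ) : ℂ := ⟨1 - z.re, z.im⟩

theorem mir_mem {p q w : ℂ} (h : w ∈ segment ℝ (mir p) (mir q)) : mir w ∈ segment ℝ p q := by
  obtain ⟨a, b, ha, hb, hab, rfl⟩ := h
  refine ⟨a, b, ha, hb, hab, ?_⟩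
  apply Complex.ext
  · simp [mir]; linear_combination hab
  · simp [mir]

theorem mir_disjoint {p q p' q' : ℂ} (h : Disjoint (segment ℝ p q) (segment ℝ p' q')) :
    Disjoint (segment ℝ (mir p) (mir q)) (segment ℝ (mir p') (mir q')) :=
  Set.disjoint_left.2 fun _ h1 h2 => Set.disjoint_left.1 h (mir_mem h1) (mir_mem h2)

theorem mir_dist (p q : ℂ) : dist (mir p) (mir q) = dist p q := by
  rw [Complex.dist_eq_re_im, Complex.dist_eq_re_im]
  simp only [mir]
  congr 1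
  ring

/-- The static lemma for both positions of the horizontal bar `X`, in the thin triangle. -/
theorem static' {m : ℕ} {P : ℕ → ℂ} {W : ℝ} {lam : ℕ → ℝ} (hW : 0 < W) (hW1 : W ≤ 1 / 100)
    (hreg : ∀ i ≤ m + 4, P i ∈ reg (256 / W))
    (huv : (P 2).im = (P 1).im) (hX : dist (P 1) (P 2) = xi W)
    (hB : 4 / W ≤ dist (P 0) (P 1)) (hb : (P 1).im < (P 0).im)
    (hY : 1 ≤ dist (P 2) (P 3)) (hr : (P 3).im < (P 2).im)
    (hH : ∀ i < m, dist (P (i + 3)) (P (i + 4)) = lam i)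
    (hsum : ∑ i ∈ Finset.range m, lam i ≤ 3 / 10)
    (hB' : 1 ≤ dist (P (m + 3)) (P (m + 4))) (hb' : (P (m + 4)).im < (P (m + 3)).im)
    (dX : ∀ i ≤ m, Disjoint (segment ℝ (P (i + 3)) (P (i + 4))) (segment ℝ (P 1) (P 2)))
    (dB : ∀ i ≤ m, Disjoint (segment ℝ (P (i + 3)) (P (i + 4))) (segment ℝ (P 0) (P 1))) :
    ∃ ε : ℕ → ℤ, (∀ i, ε i = 1 ∨ ε i = -1) ∧
      |∑ i ∈ Finset.range m, (ε i : ℝ) * lam i| < (4 * m + 4) * W := by
  have hD : 0 < 256 / W := by positivity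
  have strip : ∀ i ≤ m + 4, 0 < (P i).im ∧ 0 < (P i).re ∧ (P i).re < 1 := by
    intro i hi
    obtain ⟨h1, h2, h3⟩ := hreg i hi
    exact ⟨h1, (mul_pos_iff_of_pos_left hD).1 (by linarith), h3⟩
  have hsq : (xi W) ^ 2 = ((P 2).re - (P 1).re) ^ 2 := by
    rw [← hX, dist_sq', huv]; ring
  have hxi : xi W = 1 - W ^ 2 / 256 := rfl
  have hxi0 : 0 < xi W := by rw [hxi]; nlinarith
  have habs : |(P 2).re - (P 1).re| = xi W := by
    rw [← abs_of_pos hxi0, ← sq_eq_sq_iff_abs_eq_abs]; exact hsq.symm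
  obtain ⟨v0, v1, v2⟩ := strip 1 (by omega)
  obtain ⟨u0, u1, u2⟩ := strip 2 (by omega)
  have hv' := (hreg 1 (by omega)).2.1
  have hu' := (hreg 2 (by omega)).2.1
  have hWW : W ^ 2 / 256 ≤ W / 4 := by nlinarith
  have hlow : ∀ x : ℝ, (P 1).im < 256 / W * x → 1 - xi W - x > 0 → (P 1).im < W := by
    intro x h1 h2
    have h3 : 256 / W * x < 256 / W * (1 - xi W) := mul_lt_mul_of_pos_left (by linarith) hD
    have h4 : 256 / W * (1 - xi W) = W := by rw [hxi]; field_simp; ring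
    linarith
  rcases le_total (P 1).re (P 2).re with hc | hc
  · -- the mirror image
    rw [abs_of_nonneg (by linarith)] at habs
    have hvW : (P 1).im < W := hlow (P 1).re hv' (by linarith)
    refine static (m := m) (P := fun i => mir (P i)) hW hW1 ?_ huv hvW ?_ ?_ ?_ hb ?_ hr ?_ hsum
      ?_ hb' ?_ ?_
    · intro i hi
      obtain ⟨h1, h2, h3⟩ := strip i hi
      exact ⟨h1, by show 0 < 1 - (P i).re; linarith, by show 1 - (P i).re < 1; linarith⟩
    · show 1 - (P 2).re ≤ W / 4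
      rw [hxi] at habs; linarith
    · show 1 - W / 4 ≤ 1 - (P 1).re
      rw [hxi] at habs; linarith
    · rw [mir_dist]; exact hB
    · rw [mir_dist]; exact hY
    · intro i hi; rw [mir_dist]; exact hH i hi
    · rw [mir_dist]; exact hB'
    · intro i hi; exact mir_disjoint (dX i hi)
    · intro i hi; exact mir_disjoint (dB i hi)
  · rw [abs_of_nonpos (by linarith)] at habs
    have hvW : (P 1).im < W := hlow (P 2).re (by rw [← huv]; exact hu') (by linarith)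
    refine static hW hW1 strip huv hvW ?_ ?_ hB hb hY hr hH hsum hB' hb' dX dB
    · rw [hxi] at habs; linarith
    · rw [hxi] at habs; linarith

/-- **Only if**, for a chain with `m + 4` bars. -/
theorem only_if_aux {m : ℕ} {W : ℝ} {lam : ℕ → ℝ} {a : Fin (m + 4 + 1) → ℂ} (hW : 0 < W)
    (hW1 : W ≤ 1 / 100) (ha : ∀ j, a j ∈ reg (256 / W))
    (l0 : dist (a ⟨0, by omega⟩) (a ⟨1, by omega⟩) = 4 / W)
    (l1 : dist (a ⟨1, by omega⟩) (a ⟨2, by omega⟩) = xi W)
    (l2 : 1 ≤ dist (a ⟨2, by omega⟩) (a ⟨3, by omega⟩))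
    (lH : ∀ i (hi : i < m), dist (a ⟨i + 3, by omega⟩) (a ⟨i + 4, by omega⟩) = lam i)
    (lB' : 1 ≤ dist (a ⟨m + 3, by omega⟩) (a ⟨m + 4, by omega⟩))
    (hsum : ∑ i ∈ Finset.range m, lam i ≤ 3 / 10)
    (o1 : (a ⟨1, by omega⟩).im < (a ⟨0, by omega⟩).im)
    (o2 : (a ⟨3, by omega⟩).im < (a ⟨2, by omega⟩).im)
    (o3 : (a ⟨m + 4, by omega⟩).im < (a ⟨m + 3, by omega⟩).im)
    (o4 : (a ⟨1, by omega⟩).im < (a ⟨2, by omega⟩).im) (h : CanStraighten (thin (256 / W)) a) :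
    ∃ ε : ℕ → ℤ, (∀ i, ε i = 1 ∨ ε i = -1) ∧
      |∑ i ∈ Finset.range m, (ε i : ℝ) * lam i| < (4 * m + 4) * W := by
  have hD : 0 < 256 / W := by positivity
  obtain ⟨A, hc, hl, hnsi, h0, hs, hreg⟩ := frame hD (by omega) ha h
  have hl' : ∀ t ∈ Icc (0 : ℝ) 1, ∀ i (hi : i + 1 < m + 4 + 1),
      dist (A t ⟨i, by omega⟩) (A t ⟨i + 1, hi⟩) = dist (a ⟨i, by omega⟩) (a ⟨i + 1, hi⟩) :=
    fun t ht i hi => hl t ht ⟨i, by omega⟩
  have hW4 : (1 : ℝ) ≤ 4 / W := by rw [le_div_iff₀ hW]; linarith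
  obtain ⟨t, ht, c1, c2, c3, c4⟩ := exists_horizontal hD hc hreg (b := ⟨0, by omega⟩)
    (v := ⟨1, by omega⟩) (u := ⟨2, by omega⟩) (r := ⟨3, by omega⟩) (e := ⟨m + 3, by omega⟩)
    (b' := ⟨m + 4, by omega⟩) (Fin.mk_lt_mk.2 (by omega)) (Fin.mk_lt_mk.2 (by omega))
    (fun t ht => by
      rw [dist_comm]
      have := hl' t ht 0 (by omega)
      simp only [Nat.zero_add] at this
      rw [this, l0]; exact hW4)
    (fun t ht => by
      rw [dist_comm]
      have := hl' t ht 2 (by omega)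
      simp only [Nat.reduceAdd] at this
      rw [this]; exact l2)
    (fun t ht => by
      rw [dist_comm]
      exact lB'.trans (hl' t ht (m + 3) (by omega)).ge)
    (by rw [h0]; exact o1) (by rw [h0]; exact o2) (by rw [h0]; exact o3) (by rw [h0]; exact o4) hs
  set P : ℕ → ℂ := fun i => if hi : i < m + 4 + 1 then A t ⟨i, hi⟩ else 0 with hP
  have hPi : ∀ i (hi : i < m + 4 + 1), P i = A t ⟨i, hi⟩ := fun i hi => by simp only [hP]; rw [dif_pos hi]
  have hbar : ∀ i (hi : i < m + 4), abar (A t) ⟨i, hi⟩ = segment ℝ (P i) (P (i + 1)) := by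
    intro i hi
    rw [hPi i (by omega), hPi (i + 1) (by omega)]
    rfl
  refine static' (m := m) (P := P) hW hW1 ?_ ?_ ?_ ?_ ?_ ?_ ?_ ?_ hsum ?_ ?_ ?_ ?_
  · intro i hi
    rw [hPi i (by omega)]
    exact hreg t ht _
  · rw [hPi 2 (by omega), hPi 1 (by omega)]; exact c1
  · rw [hPi 2 (by omega), hPi 1 (by omega)]
    have := hl' t ht 1 (by omega)
    simp only [Nat.reduceAdd] at this
    rw [this]; exact l1
  · rw [hPi 0 (by omega), hPi 1 (by omega)]
    have := hl' t ht 0 (by omega)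
    simp only [Nat.zero_add] at this
    rw [this, l0]
  · rw [hPi 0 (by omega), hPi 1 (by omega)]; exact c2
  · rw [hPi 2 (by omega), hPi 3 (by omega)]
    have := hl' t ht 2 (by omega)
    simp only [Nat.reduceAdd] at this
    rw [this]; exact l2
  · rw [hPi 2 (by omega), hPi 3 (by omega)]; exact c3
  · intro i hi
    rw [hPi (i + 3) (by omega), hPi (i + 4) (by omega)]
    exact (hl' t ht (i + 3) (by omega)).trans (lH i hi)
  · rw [hPi (m + 3) (by omega), hPi (m + 4) (by omega)]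
    exact lB'.trans (hl' t ht (m + 3) (by omega)).ge
  · rw [hPi (m + 3) (by omega), hPi (m + 4) (by omega)]; exact c4
  · intro i hi
    have := (hnsi t ht).open_other ⟨1, by omega⟩ ⟨i + 3, by omega⟩ (by simp)
    rw [hbar, hbar] at this
    exact this.symm
  · intro i hi
    have := (hnsi t ht).open_other ⟨0, by omega⟩ ⟨i + 3, by omega⟩ (by simp)
    rw [hbar, hbar] at this
    exact this.symm

end Pool.Agent.MP_aff8ab_lc.NP
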